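import Pool.Agent.PolyProd.Defs
import Mathlib.Combinatorics.Enumerative.DoubleCounting
import Mathlib.Algebra.BigOperators.Ring.Nat

/-!
# Regular graphs with 2-faces have no small edge cuts

The graph of a simple polytope of dimension `d` is connected and `d`-regular, its 2-faces are
cycles, any two edges at a vertex lie in a 2-face, and two different 2-faces have at most one
common edge. We show that these facts imply that every edge cut has at least `d` edges.
-/

namespace PolyProd

open Finset

/-- `G` is connected, every vertex has exactly `d` neighbours, and there is a family `F` of sets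
of edges of `G` (the 2-faces) such that every vertex lies on no edge or on exactly two edges of
each member, any two different edges with a common end lie in some member, and two different
members have at most one common edge. -/
structure Skeleton {V : Type*} (G : SimpleGraph V) (d : ℕ) : Prop where
  /-- The graph is connected. -/
  conn : G.Connected
  /-- Every vertex has exactly `d` neighbours. -/
  reg : ∀ v, (G.neighborSet v).ncard = d
  /-- The 2-faces. -/
  faces : ∃ F : Set (Set (Sym2 V)),
    (∀ f ∈ F, f ⊆ G.edgeSet) ∧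
    (∀ f ∈ F, ∀ v, {e ∈ f | v ∈ e}.ncard = 0 ∨ {e ∈ f | v ∈ e}.ncard = 2) ∧
    (∀ e ∈ G.edgeSet, ∀ e' ∈ G.edgeSet, e ≠ e' → ∀ v, v ∈ e → v ∈ e' → ∃ f ∈ F, e ∈ f ∧ e' ∈ f) ∧
    (∀ f ∈ F, ∀ f' ∈ F, f ≠ f' → (f ∩ f').ncard ≤ 1)

/-- The number of edges of `f` with an odd number of ends in `K` is even, if every vertex is on
no edge or on two edges of `f`. -/
theorem even_card_cut {V : Type*} [Fintype V] [DecidableEq V] (f : Finset (Sym2 V)) (K : Finset V)
    (hf : ∀ v, Even (f.filter fun e => v ∈ e).card) :
    Even (f.filter fun e => Odd (K.filter fun v => v ∈ e).card).card := by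
  rw [← Finset.even_sum_iff_even_card_odd]
  have h := Finset.sum_card_bipartiteAbove_eq_sum_card_bipartiteBelow
    (fun (e : Sym2 V) (v : V) => v ∈ e) (s := f) (t := K)
  have h1 : ∑ e ∈ f, (K.filter fun v => v ∈ e).card = ∑ v ∈ K, (f.filter fun e => v ∈ e).card := h
  rw [h1]
  exact Finset.even_sum _ fun v _ => hf v

/-- For an edge the number of its ends in `K` is odd iff exactly one end is in `K`. -/
theorem exists_of_odd {V : Type*} [Fintype V] [DecidableEq V] {G : SimpleGraph V} (K : Finset V)
    {e : Sym2 V} (he : e ∈ G.edgeSet) (ho : Odd (K.filter fun v => v ∈ e).card) :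
    ∃ a b, e = s(a, b) ∧ a ∈ K ∧ b ∉ K ∧ G.Adj a b := by
  induction e with
  | _ a b =>
    have hab : G.Adj a b := he
    by_cases ha : a ∈ K
    · by_cases hb : b ∈ K
      · exfalso
        have : (K.filter fun v => v ∈ s(a, b)) = {a, b} := by
          ext v
          simp only [mem_filter, Sym2.mem_iff, mem_insert, mem_singleton]
          constructor
          · exact fun h => h.2
          · rintro (rfl | rfl)
            · exact ⟨ha, Or.inl rfl⟩
            · exact ⟨hb, Or.inr rfl⟩
        rw [this, Finset.card_pair hab.ne] at ho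
        exact absurd ho (by decide)
      · exact ⟨a, b, rfl, ha, hb, hab⟩
    · by_cases hb : b ∈ K
      · exact ⟨b, a, Sym2.eq_swap, hb, ha, hab.symm⟩
      · exfalso
        have : (K.filter fun v => v ∈ s(a, b)) = ∅ := by
          ext v
          simp only [mem_filter, Sym2.mem_iff, Finset.notMem_empty, iff_false, not_and]
          rintro hv (rfl | rfl)
          · exact ha hv
          · exact hb hv
        rw [this, Finset.card_empty] at ho
        exact absurd ho (by decide)

/-- Conversely an edge with exactly one end in `K` has an odd number of ends in `K`. -/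
theorem odd_of_cut {V : Type*} [Fintype V] [DecidableEq V] (K : Finset V) {a b : V} (ha : a ∈ K)
    (hb : b ∉ K) : Odd (K.filter fun v => v ∈ s(a, b)).card := by
  have : (K.filter fun v => v ∈ s(a, b)) = {a} := by
    ext v
    simp only [mem_filter, Sym2.mem_iff, mem_singleton]
    constructor
    · rintro ⟨hv, rfl | rfl⟩
      · rfl
      · exact absurd hv hb
    · rintro rfl
      exact ⟨ha, Or.inl rfl⟩
  rw [this, Finset.card_singleton]
  exact odd_one

/-- A graph with 2-faces as in `Skeleton` has no edge cut with fewer than `d` edges. -/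
theorem Skeleton.regConn {V : Type*} [Finite V] {G : SimpleGraph V} {d : ℕ} (h : Skeleton G d) :
    RegConn G d := by
  classical
  have := Fintype.ofFinite V
  refine ⟨h.conn, h.reg, ?_⟩
  intro K hK hKc
  obtain ⟨F, hF1, hF2, hF3, hF4⟩ := h.faces
  -- a cut edge
  obtain ⟨x, y₀, hx, hy₀, hxy₀⟩ : ∃ x y, x ∈ K ∧ y ∉ K ∧ G.Adj x y := by
    obtain ⟨a, ha⟩ := hK
    obtain ⟨b, hb⟩ := hKc
    obtain ⟨p⟩ := h.conn.preconnected a b
    obtain ⟨q, hq1, hq2, hq3⟩ := p.exists_boundary_dart K ha hb
    exact ⟨q.fst, q.snd, hq2, hq3, q.adj⟩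
  set K' : Finset V := K.toFinset with hK'
  have hmemK' : ∀ v, v ∈ K' ↔ v ∈ K := fun v => Set.mem_toFinset
  -- the cut edges
  let C : Finset (Sym2 V) := univ.filter fun e => e ∈ G.edgeSet ∧
    Odd (K'.filter fun v => v ∈ e).card
  have hC0 : s(x, y₀) ∈ C := by
    simp only [C, mem_filter, mem_univ, true_and]
    exact ⟨hxy₀, odd_of_cut K' ((hmemK' x).2 hx) (fun h' => hy₀ ((hmemK' y₀).1 h'))⟩
  -- for each further neighbour a face and a second cut edge in it
  have key : ∀ y, G.Adj x y → y ≠ y₀ → ∃ f ∈ F, s(x, y₀) ∈ f ∧ s(x, y) ∈ f ∧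
      ∃ c ∈ f, c ∈ C ∧ c ≠ s(x, y₀) := by
    intro y hxy hne
    have hne' : s(x, y₀) ≠ s(x, y) := by
      intro h'
      rw [Sym2.congr_right] at h'
      exact hne h'.symm
    obtain ⟨f, hf, h1, h2⟩ := hF3 _ hxy₀ _ hxy hne' x (Sym2.mem_mk_left _ _) (Sym2.mem_mk_left _ _)
    refine ⟨f, hf, h1, h2, ?_⟩
    have hev := even_card_cut f.toFinset K' (by
      intro v
      have h3 := hF2 f hf v
      have h4 : {e ∈ f | v ∈ e}.ncard = (f.toFinset.filter fun e => v ∈ e).card := by
        rw [Set.ncard_eq_toFinset_card']
        congr 1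
        ext e
        simp
      rw [h4] at h3
      rcases h3 with h3 | h3
      · rw [h3]
        exact ⟨0, rfl⟩
      · rw [h3]
        exact ⟨1, rfl⟩)
    have hmem : s(x, y₀) ∈ f.toFinset.filter fun e => Odd (K'.filter fun v => v ∈ e).card := by
      rw [mem_filter, Set.mem_toFinset]
      exact ⟨h1, (mem_filter.1 hC0).2.2⟩
    have hcard : 1 < (f.toFinset.filter fun e => Odd (K'.filter fun v => v ∈ e).card).card := by
      have hpos := Finset.card_pos.2 ⟨_, hmem⟩
      rcases hev with ⟨k, hk⟩
      omega
    obtain ⟨c, hc, hcne⟩ := Finset.exists_mem_ne hcard s(x, y₀)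
    rw [mem_filter, Set.mem_toFinset] at hc
    refine ⟨c, hc.1, ?_, hcne⟩
    simp only [C, mem_filter, mem_univ, true_and]
    exact ⟨hF1 f hf hc.1, hc.2⟩
  have : Nonempty (Sym2 V) := ⟨s(x, x)⟩
  choose! f hf hf0 hfy c hcf hcC hcne using key
  let φ : V → Sym2 V := fun y => if y = y₀ then s(x, y₀) else c y
  have hφ : (G.neighborFinset x).card ≤ C.card := by
    refine Finset.card_le_card_of_injOn φ ?_ ?_
    · intro y hy
      have hy' : G.Adj x y := by simpa using hy
      by_cases h1 : y = y₀
      · simp only [φ, h1, if_true]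
        exact hC0
      · simp only [φ, h1, if_false]
        exact hcC y hy' h1
    · intro y hy z hz hyz
      have hy' : G.Adj x y := by simpa using hy
      have hz' : G.Adj x z := by simpa using hz
      by_cases h1 : y = y₀
      · by_cases h2 : z = y₀
        · rw [h1, h2]
        · exfalso
          simp only [φ, h1, h2, if_true, if_false] at hyz
          exact hcne z hz' h2 hyz.symm
      · by_cases h2 : z = y₀
        · exfalso
          simp only [φ, h1, h2, if_true, if_false] at hyz
          exact hcne y hy' h1 hyz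
        · simp only [φ, h1, h2, if_false] at hyz
          by_contra hne
          have hff : f y = f z := by
            by_contra hfne
            have h3 := hF4 _ (hf y hy' h1) _ (hf z hz' h2) hfne
            rw [Set.ncard_le_one (Set.toFinite _)] at h3
            exact hcne y hy' h1 (h3 _ ⟨hcf y hy' h1, hyz ▸ hcf z hz' h2⟩ _
              ⟨hf0 y hy' h1, hf0 z hz' h2⟩)
          -- three edges at `x` in one face
          have h4 : ({s(x, y₀), s(x, y), s(x, z)} : Finset (Sym2 V)).card = 3 := by
            rw [Finset.card_eq_three]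
            refine ⟨_, _, _, ?_, ?_, ?_, rfl⟩
            · exact fun h' => h1 (Sym2.congr_right.1 h').symm
            · exact fun h' => h2 (Sym2.congr_right.1 h').symm
            · exact fun h' => hne (Sym2.congr_right.1 h')
          have h5 : (({s(x, y₀), s(x, y), s(x, z)} : Finset (Sym2 V)) : Set (Sym2 V)) ⊆
              {e ∈ f y | x ∈ e} := by
            intro e he
            simp only [coe_insert, coe_singleton, Set.mem_insert_iff, Set.mem_singleton_iff] at he
            rcases he with rfl | rfl | rfl
            · exact ⟨hf0 y hy' h1, Sym2.mem_mk_left _ _⟩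
            · exact ⟨hfy y hy' h1, Sym2.mem_mk_left _ _⟩
            · exact ⟨hff ▸ hfy z hz' h2, Sym2.mem_mk_left _ _⟩
          have h6 := Set.ncard_le_ncard h5 (Set.toFinite _)
          rw [Set.ncard_coe_finset, h4] at h6
          rcases hF2 _ (hf y hy' h1) x with h7 | h7 <;> omega
  have hCK : C.card ≤ {p : V × V | p.1 ∈ K ∧ p.2 ∉ K ∧ G.Adj p.1 p.2}.ncard := by
    rw [Set.ncard_eq_toFinset_card']
    have hsub : C ⊆ ({p : V × V | p.1 ∈ K ∧ p.2 ∉ K ∧ G.Adj p.1 p.2}.toFinset).image
        fun p => s(p.1, p.2) := by
      intro e he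
      obtain ⟨he1, he2⟩ := (mem_filter.1 he).2
      obtain ⟨a, b, rfl, ha, hb, hab⟩ := exists_of_odd K' he1 he2
      rw [Finset.mem_image]
      refine ⟨(a, b), ?_, rfl⟩
      rw [Set.mem_toFinset]
      exact ⟨(hmemK' a).1 ha, fun h' => hb ((hmemK' b).2 h'), hab⟩
    exact (Finset.card_le_card hsub).trans Finset.card_image_le
  have hd : (G.neighborFinset x).card = d := by
    rw [← h.reg x, Set.ncard_eq_toFinset_card', SimpleGraph.card_neighborFinset_eq_degree,
      Set.toFinset_card, SimpleGraph.card_neighborSet_eq_degree]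
  omega

end PolyProd
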