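import Pool.Agent.PolyProd.Defs
import Mathlib.Combinatorics.Hall.Basic
import Mathlib.Combinatorics.SimpleGraph.DegreeSum
import Mathlib.Combinatorics.SimpleGraph.Tutte
import Mathlib.Combinatorics.Enumerative.DoubleCounting

/-!
# Two-factors of regular graphs without small edge cuts

A finite connected `d`-regular graph, `d ≥ 2`, in which every edge cut has at least `d` edges has
a spanning subgraph all of whose components are cycles of length at least 3, given here as a
permutation `g` of the vertices such that `x` and `g x` are adjacent and `g (g x) ≠ x`.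

For even degree this is Petersen's theorem (any regular graph of even degree): an orientation with
equal in- and out-degrees from Hall's theorem for the edges, then Hall's theorem for the
out-neighbourhoods. For odd degree a perfect matching (Tutte) is removed first.
-/

namespace PolyProd

open Finset

/-- Hall's theorem applied to the edges: if all degrees are `2 * m` then every edge can choose one
of its ends, together with a number below `m`, injectively. -/
theorem exists_edge_choice {V : Type*} [Fintype V] [DecidableEq V] (G : SimpleGraph V)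
    [DecidableRel G.Adj] (m : ℕ) (hdeg : ∀ v, G.degree v = 2 * m) :
    ∃ f : G.edgeSet → V × Fin m, Function.Bijective f ∧
      ∀ e : G.edgeSet, (f e).1 ∈ (e : Sym2 V) := by
  classical
  let t : G.edgeSet → Finset (V × Fin m) := fun e =>
    univ.filter fun p : V × Fin m => p.1 ∈ (e : Sym2 V)
  have hall : ∀ s : Finset G.edgeSet, s.card ≤ (s.biUnion t).card := by
    intro s
    let W : Finset V := univ.filter fun v => ∃ e ∈ s, v ∈ (e : Sym2 V)
    have h1 : s.biUnion t = W ×ˢ (univ : Finset (Fin m)) := by
      ext ⟨v, j⟩
      simp only [mem_biUnion, mem_product, mem_univ, and_true, W, t, mem_filter, true_and]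
    have h2 : s.card * 2 ≤ W.card * (2 * m) := by
      refine Finset.card_mul_le_card_mul (fun (e : G.edgeSet) (v : V) => v ∈ (e : Sym2 V))
        (s := s) (t := W) ?_ ?_
      · rintro ⟨e, he⟩ hes
        induction e with
        | _ x y =>
          have hxy : G.Adj x y := he
          have hsub : ({x, y} : Finset V) ⊆
              W.bipartiteAbove (fun (e : G.edgeSet) (v : V) => v ∈ (e : Sym2 V)) ⟨s(x, y), he⟩ := by
            intro z hz
            have hz' : z ∈ s(x, y) := by
              simpa using hz
            rw [Finset.mem_bipartiteAbove]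
            exact ⟨by simp only [W, mem_filter, mem_univ, true_and]; exact ⟨_, hes, hz'⟩, hz'⟩
          calc 2 = ({x, y} : Finset V).card := (Finset.card_pair hxy.ne).symm
            _ ≤ _ := Finset.card_le_card hsub
      · intro v _
        have : (s.bipartiteBelow (fun (e : G.edgeSet) (v : V) => v ∈ (e : Sym2 V)) v).card
            ≤ (G.incidenceFinset v).card := by
          refine Finset.card_le_card_of_injOn (fun e => (e : Sym2 V)) ?_ ?_
          · intro e he
            have he' := (Finset.mem_bipartiteBelow _).1 he
            simp only [SimpleGraph.coe_incidenceFinset]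
            exact ⟨e.2, he'.2⟩
          · intro a _ b _ hab
            exact Subtype.ext hab
        rw [SimpleGraph.card_incidenceFinset_eq_degree, hdeg v] at this
        exact this
    rw [h1, Finset.card_product, Finset.card_univ, Fintype.card_fin]
    nlinarith [h2]
  obtain ⟨f, hf, hft⟩ := (Finset.all_card_le_biUnion_card_iff_exists_injective t).1 hall
  refine ⟨f, ?_, fun e => by simpa [t] using hft e⟩
  rw [Fintype.bijective_iff_injective_and_card]
  refine ⟨hf, ?_⟩
  have h3 := G.sum_degrees_eq_twice_card_edges
  simp only [hdeg, Finset.sum_const, Finset.card_univ, smul_eq_mul] at h3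
  rw [Fintype.card_prod, Fintype.card_fin, ← SimpleGraph.edgeFinset_card]
  nlinarith [h3]

/-- Petersen: a graph all of whose degrees are `2 * m ≥ 2` has a 2-factor. -/
theorem exists_two_factor_even {V : Type*} [Fintype V] [DecidableEq V] (G : SimpleGraph V)
    [DecidableRel G.Adj] (m : ℕ) (hm : 1 ≤ m) (hdeg : ∀ v, G.degree v = 2 * m) :
    ∃ g : Equiv.Perm V, ∀ x, G.Adj x (g x) ∧ g (g x) ≠ x := by
  classical
  obtain ⟨f, hf, hft⟩ := exists_edge_choice G m hdeg
  let D : V → V → Prop := fun x z => ∃ h : G.Adj x z, (f ⟨s(x, z), h⟩).1 = x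
  have hD : ∀ x z, D x z → ¬ D z x := by
    rintro x z ⟨h, h1⟩ ⟨h', h2⟩
    have he : (⟨s(z, x), h'⟩ : G.edgeSet) = ⟨s(x, z), h⟩ := Subtype.ext Sym2.eq_swap
    rw [he, h1] at h2
    exact h.ne h2
  have hout : ∀ x, m ≤ (univ.filter fun z => D x z).card := by
    intro x
    have hz : ∀ j : Fin m, ∃ z, ∃ h : G.Adj x z, f ⟨s(x, z), h⟩ = (x, j) := by
      intro j
      obtain ⟨⟨e, he⟩, hej⟩ := hf.2 (x, j)
      have hx : x ∈ e := by
        have := hft ⟨e, he⟩
        rwa [hej] at this
      obtain ⟨z, rfl⟩ := Sym2.mem_iff_exists.1 hx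
      exact ⟨z, he, hej⟩
    choose z hz1 hz2 using hz
    have hinj : Function.Injective z := by
      intro i j hij
      have h1 := hz2 i
      have h2 := hz2 j
      have : (⟨s(x, z i), hz1 i⟩ : G.edgeSet) = ⟨s(x, z j), hz1 j⟩ := by
        apply Subtype.ext
        simp [hij]
      rw [this, h2] at h1
      exact (Prod.ext_iff.1 h1).2.symm
    calc m = (univ : Finset (Fin m)).card := by simp
      _ = (univ.image z).card := (Finset.card_image_of_injective _ hinj).symm
      _ ≤ _ := by
        apply Finset.card_le_card
        intro y hy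
        obtain ⟨j, _, rfl⟩ := Finset.mem_image.1 hy
        simp only [mem_filter, mem_univ, true_and]
        exact ⟨hz1 j, by rw [hz2 j]⟩
  have hin : ∀ x, (univ.filter fun z => D z x).card ≤ m := by
    intro x
    have hdis : Disjoint (univ.filter fun z => D x z) (univ.filter fun z => D z x) := by
      rw [Finset.disjoint_left]
      intro z h1 h2
      exact hD x z (by simpa using h1) (by simpa using h2)
    have hsub : (univ.filter fun z => D x z) ∪ (univ.filter fun z => D z x) ⊆
        G.neighborFinset x := by
      intro z hz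
      rw [SimpleGraph.mem_neighborFinset]
      rcases Finset.mem_union.1 hz with h | h
      · obtain ⟨h, _⟩ := (Finset.mem_filter.1 h).2
        exact h
      · obtain ⟨h, _⟩ := (Finset.mem_filter.1 h).2
        exact h.symm
    have := Finset.card_le_card hsub
    rw [Finset.card_union_of_disjoint hdis, SimpleGraph.card_neighborFinset_eq_degree, hdeg] at this
    have := hout x
    omega
  let t : V → Finset V := fun x => univ.filter fun z => D x z
  have hall : ∀ s : Finset V, s.card ≤ (s.biUnion t).card := by
    intro s
    have h2 : s.card * m ≤ (s.biUnion t).card * m := by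
      refine Finset.card_mul_le_card_mul D (s := s) (t := s.biUnion t) ?_ ?_
      · intro x hx
        refine (hout x).trans (Finset.card_le_card ?_)
        intro z hz
        have hz' := (Finset.mem_filter.1 hz).2
        rw [Finset.mem_bipartiteAbove]
        exact ⟨Finset.mem_biUnion.2 ⟨x, hx, hz⟩, hz'⟩
      · intro z _
        refine (Finset.card_le_card ?_).trans (hin z)
        intro x hx
        simpa using ((Finset.mem_bipartiteBelow _).1 hx).2
    exact Nat.le_of_mul_le_mul_right h2 (by omega)
  obtain ⟨g, hg, hgt⟩ := (Finset.all_card_le_biUnion_card_iff_exists_injective t).1 hall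
  have hgD : ∀ x, D x (g x) := fun x => by simpa [t] using hgt x
  refine ⟨Equiv.ofBijective g (Finite.injective_iff_bijective.1 hg), fun x => ?_⟩
  simp only [Equiv.ofBijective_apply]
  refine ⟨(hgD x).1, fun h => ?_⟩
  have h1 := hgD x
  have h2 := hgD (g x)
  rw [h] at h2
  exact hD _ _ h1 h2

/-- A graph as in `RegConn` of odd degree has a perfect matching. -/
theorem exists_perfectMatching {V : Type*} [Finite V] {G : SimpleGraph V} {m : ℕ}
    (h : RegConn G (2 * m + 1)) : ∃ M : G.Subgraph, M.IsPerfectMatching := by
  classical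
  have := Fintype.ofFinite V
  have hdeg : ∀ v, G.degree v = 2 * m + 1 := by
    intro v
    rw [← h.reg v, ← SimpleGraph.card_neighborSet_eq_degree, Set.ncard_eq_toFinset_card',
      Set.toFinset_card]
  have heven : Even (Nat.card V) := by
    have h3 := G.sum_degrees_eq_twice_card_edges
    simp only [hdeg, Finset.sum_const, Finset.card_univ, smul_eq_mul] at h3
    rw [Nat.card_eq_fintype_card]
    have : Even (Fintype.card V * (2 * m + 1)) := by
      rw [h3]
      exact even_two_mul _
    rcases Nat.even_mul.1 this with h4 | h4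
    · exact h4
    · exfalso
      rw [Nat.even_iff] at h4
      omega
  rw [SimpleGraph.tutte]
  intro u hu
  rw [SimpleGraph.IsTutteViolator] at hu
  set H := ((⊤ : G.Subgraph).deleteVerts u).coe with hH
  -- the vertex set of a component, as a set of vertices of `G`
  let K : H.ConnectedComponent → Set V := fun C => Subtype.val '' C.supp
  have hKne : ∀ C, (K C).Nonempty := by
    intro C
    obtain ⟨x, hx⟩ := C.nonempty_supp
    exact ⟨x.1, x, hx, rfl⟩
  have hKu : ∀ C x, x ∈ K C → x ∉ u := by
    rintro C x ⟨y, _, rfl⟩
    have hy : (y : V) ∈ (⊤ : G.Subgraph).verts \ u := y.2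
    exact hy.2
  have hedge : ∀ C x y, x ∈ K C → y ∉ K C → G.Adj x y → y ∈ u := by
    rintro C x y hx hy hxy
    by_contra hyu
    have hxu := hKu C x hx
    obtain ⟨x', hx', rfl⟩ := hx
    have hy' : y ∈ ((⊤ : G.Subgraph).deleteVerts u).verts := by simp [hyu]
    apply hy
    refine ⟨⟨y, hy'⟩, ?_, rfl⟩
    have hadj : H.Adj x' ⟨y, hy'⟩ := by
      rw [hH, SimpleGraph.Subgraph.coe_adj, SimpleGraph.Subgraph.deleteVerts_adj]
      simp [hxu, hyu, hxy]
    exact (C.mem_supp_congr_adj hadj).1 hx'
  have hKcard : ∀ C, (K C).ncard = C.supp.ncard := fun C =>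
    Set.ncard_image_of_injective _ Subtype.val_injective
  by_cases hue : u = ∅
  · -- no vertex removed
    have hpos : 0 < H.oddComponents.ncard := lt_of_le_of_lt (Nat.zero_le _) hu
    obtain ⟨C, hC⟩ := (Set.ncard_pos (Set.toFinite _)).1 hpos
    have hKuniv : K C = Set.univ := by
      by_contra hne
      have hc := h.cut (K C) (hKne C) (Set.nonempty_compl.2 hne)
      have hpos : 0 < {p : V × V | p.1 ∈ K C ∧ p.2 ∉ K C ∧ G.Adj p.1 p.2}.ncard := by omega
      obtain ⟨p, hp1, hp2, hp3⟩ := (Set.ncard_pos (Set.toFinite _)).1 hpos
      have := hedge C _ _ hp1 hp2 hp3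
      rw [hue] at this
      exact this
    have h1 := hKcard C
    rw [hKuniv, Set.ncard_univ] at h1
    have h2 : Odd C.supp.ncard := hC
    rw [← h1] at h2
    exact (Nat.not_odd_iff_even.2 heven) h2
  · obtain ⟨z, hz⟩ := Set.nonempty_iff_ne_empty.2 hue
    let P : Finset (V × V) := univ.filter fun p => p.2 ∈ u ∧ G.Adj p.1 p.2
    let S : Finset H.ConnectedComponent := H.oddComponents.toFinset
    have h1 : S.card * (2 * m + 1) ≤ P.card * 1 := by
      refine Finset.card_mul_le_card_mul (fun C p => p.1 ∈ K C) (s := S) (t := P) ?_ ?_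
      · intro C _
        have hc := h.cut (K C) (hKne C) ⟨z, fun hzK => hKu C z hzK hz⟩
        rw [Set.ncard_eq_toFinset_card'] at hc
        refine hc.trans (Finset.card_le_card ?_)
        intro p hp
        rw [Set.mem_toFinset] at hp
        obtain ⟨hp1, hp2, hp3⟩ := hp
        rw [Finset.mem_bipartiteAbove]
        refine ⟨?_, hp1⟩
        simp only [P, mem_filter, mem_univ, true_and]
        exact ⟨hedge C _ _ hp1 hp2 hp3, hp3⟩
      · intro p _
        rw [Finset.card_le_one]
        intro C hC C' hC'
        obtain ⟨a, ha, hae⟩ := ((Finset.mem_bipartiteBelow _).1 hC).2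
        obtain ⟨b, hb, hbe⟩ := ((Finset.mem_bipartiteBelow _).1 hC').2
        have hab : a = b := Subtype.ext (hae.trans hbe.symm)
        rw [SimpleGraph.ConnectedComponent.mem_supp_iff] at ha hb
        rw [← ha, ← hb, hab]
    have h2 : P.card * 1 ≤ u.toFinset.card * (2 * m + 1) := by
      refine Finset.card_mul_le_card_mul (fun (p : V × V) y => p.2 = y) (s := P)
        (t := u.toFinset) ?_ ?_
      · intro p hp
        have hp' := (Finset.mem_filter.1 hp).2
        apply Finset.card_pos.2
        exact ⟨p.2, (Finset.mem_bipartiteAbove _).2 ⟨Set.mem_toFinset.2 hp'.1, rfl⟩⟩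
      · intro y _
        rw [← hdeg y, ← SimpleGraph.card_neighborFinset_eq_degree]
        refine Finset.card_le_card_of_injOn (fun p => p.1) ?_ ?_
        · intro p hp
          obtain ⟨hp1, hp2⟩ := (Finset.mem_bipartiteBelow _).1 hp
          have hp' := (Finset.mem_filter.1 hp1).2
          rw [Finset.mem_coe, SimpleGraph.mem_neighborFinset]
          rw [hp2] at hp'
          exact hp'.2.symm
        · intro p hp q hq hpq
          have hp2 := ((Finset.mem_bipartiteBelow _).1 hp).2
          have hq2 := ((Finset.mem_bipartiteBelow _).1 hq).2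
          exact Prod.ext hpq (hp2.trans hq2.symm)
    have h3 : S.card ≤ u.toFinset.card := by
      have : S.card * (2 * m + 1) ≤ u.toFinset.card * (2 * m + 1) := by omega
      exact Nat.le_of_mul_le_mul_right this (by omega)
    rw [Set.ncard_eq_toFinset_card', Set.ncard_eq_toFinset_card'] at hu
    exact absurd hu (not_lt.2 h3)

/-- The degree condition of `RegConn` gives a 2-factor. -/
theorem exists_two_factor {V : Type*} [Finite V] {G : SimpleGraph V} {d : ℕ} (h : RegConn G d)
    (hd : 2 ≤ d) : ∃ g : Equiv.Perm V, ∀ x, G.Adj x (g x) ∧ g (g x) ≠ x := by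
  classical
  have := Fintype.ofFinite V
  have hdeg : ∀ v, G.degree v = d := by
    intro v
    rw [← h.reg v, ← SimpleGraph.card_neighborSet_eq_degree, Set.ncard_eq_toFinset_card',
      Set.toFinset_card]
  rcases Nat.even_or_odd' d with ⟨m, rfl | rfl⟩
  · exact exists_two_factor_even G m (by omega) hdeg
  · obtain ⟨M, hM⟩ := exists_perfectMatching h
    rw [SimpleGraph.Subgraph.isPerfectMatching_iff] at hM
    choose p hp1 hp2 using hM
    let G' : SimpleGraph V :=
      { Adj := fun x y => G.Adj x y ∧ ¬ M.Adj x y
        symm := ⟨fun x y hxy => ⟨hxy.1.symm, fun h' => hxy.2 h'.symm⟩⟩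
        loopless := ⟨fun x hx => hx.1.ne rfl⟩ }
    have hdeg' : ∀ v, G'.degree v = 2 * m := by
      intro v
      have : G'.neighborFinset v = (G.neighborFinset v).erase (p v) := by
        ext w
        rw [SimpleGraph.mem_neighborFinset, Finset.mem_erase, SimpleGraph.mem_neighborFinset]
        constructor
        · rintro ⟨h1, h2⟩
          exact ⟨fun h3 => h2 (h3 ▸ hp1 v), h1⟩
        · rintro ⟨h1, h2⟩
          exact ⟨h2, fun h3 => h1 (hp2 v w h3)⟩
      rw [← SimpleGraph.card_neighborFinset_eq_degree, this, Finset.card_erase_of_mem,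
        SimpleGraph.card_neighborFinset_eq_degree, hdeg]
      · simp
      · rw [SimpleGraph.mem_neighborFinset]
        exact (hp1 v).adj_sub
    obtain ⟨g, hg⟩ := exists_two_factor_even G' m (by omega) hdeg'
    exact ⟨g, fun x => ⟨(hg x).1.1, (hg x).2⟩⟩

end PolyProd
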