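import Pool.Agent.PolyProd.WinClosure
import Mathlib.Combinatorics.SimpleGraph.Acyclic
import Mathlib.Combinatorics.SimpleGraph.DegreeSum

/-!
# Win's theorem for regular graphs with large edge cuts

Counting of components and the final theorem `exists_connected_three`.
-/

namespace PolyProd

namespace Win

open SimpleGraph

variable {V : Type*}

/-- The number of ordered pairs of adjacent vertices. -/
noncomputable def dd (H : SimpleGraph V) : ℕ := {p : V × V | H.Adj p.1 p.2}.ncard

lemma dd_eq [Finite V] (H : SimpleGraph V) : dd H = 2 * Nat.card H.edgeSet := by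
  classical
  have := Fintype.ofFinite V
  rw [dd, Set.ncard_eq_toFinset_card', Nat.card_eq_fintype_card, ← edgeFinset_card,
    two_mul_card_edgeFinset]
  congr 1
  ext ⟨x, y⟩
  simp

lemma dd_tree [Finite V] {T : SimpleGraph V} (hT : T.IsTree) : dd T + 2 = 2 * Nat.card V := by
  have := (isTree_iff_connected_and_card.1 hT).2
  rw [dd_eq]
  omega

lemma dd_conn [Finite V] {H : SimpleGraph V} (hH : H.Connected) : 2 * Nat.card V ≤ dd H + 2 := by
  have := hH.card_vert_le_card_edgeSet_add_one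
  rw [dd_eq]
  omega

lemma cc_bound [Finite V] (H : SimpleGraph V) :
    2 * Nat.card V ≤ dd H + 2 * Nat.card H.ConnectedComponent := by
  classical
  rcases isEmpty_or_nonempty V with hV | hV
  · simp
  let r : H.ConnectedComponent → V := fun c => Quot.out c
  have hr : ∀ c, H.connectedComponentMk (r c) = c := fun c => Quot.out_eq c
  have hinj : Function.Injective r := fun c c' h => by rw [← hr c, ← hr c', h]
  let c0 : H.ConnectedComponent := H.connectedComponentMk (Classical.arbitrary V)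
  set R : Set V := Set.range r \ {r c0} with hR
  have hRc : R.ncard + 1 = Nat.card H.ConnectedComponent := by
    rw [hR, Set.ncard_sdiff_singleton_add_one (Set.mem_range_self c0) (Set.toFinite _),
      ← Nat.card_coe_set_eq, Nat.card_range_of_injective hinj]
  let H' : SimpleGraph V :=
    { Adj := fun x y => H.Adj x y ∨ (x = r c0 ∧ y ∈ R) ∨ (y = r c0 ∧ x ∈ R)
      symm := ⟨fun x y h => by
        rcases h with h | h | h
        · exact Or.inl h.symm
        · exact Or.inr (Or.inr h)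
        · exact Or.inr (Or.inl h)⟩
      loopless := ⟨fun x h => by
        rcases h with h | ⟨h, h'⟩ | ⟨h, h'⟩
        · exact H.irrefl h
        · exact h'.2 h
        · exact h'.2 h⟩ }
  have hle : H ≤ H' := fun _ _ h => Or.inl h
  have hreach : ∀ x, H'.Reachable x (r c0) := by
    intro x
    have h1 : H.Reachable x (r (H.connectedComponentMk x)) :=
      (ConnectedComponent.exact (hr (H.connectedComponentMk x))).symm
    refine (h1.mono hle).trans ?_
    by_cases h : r (H.connectedComponentMk x) = r c0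
    · rw [h]
    · exact Adj.reachable (show H'.Adj _ _ from
        Or.inr (Or.inr ⟨rfl, Set.mem_range_self _, h⟩))
  have hconn : H'.Connected := ⟨fun x y => (hreach x).trans (hreach y).symm⟩
  have h2 := dd_conn hconn
  have h3 : dd H' ≤ dd H + (R.ncard + R.ncard) := by
    have hsub : {p : V × V | H'.Adj p.1 p.2} ⊆
        {p : V × V | H.Adj p.1 p.2} ∪ ((fun y => (r c0, y)) '' R ∪ (fun x => (x, r c0)) '' R) := by
      rintro ⟨x, y⟩ (h | ⟨h, h'⟩ | ⟨h, h'⟩)
      · exact Or.inl h
      · exact Or.inr (Or.inl ⟨y, h', by simp only at h; rw [h]⟩)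
      · exact Or.inr (Or.inr ⟨x, h', by simp only at h; rw [h]⟩)
    refine (Set.ncard_le_ncard hsub (Set.toFinite _)).trans ?_
    refine (Set.ncard_union_le _ _).trans ?_
    refine Nat.add_le_add_left ((Set.ncard_union_le _ _).trans ?_) _
    exact Nat.add_le_add (Set.ncard_image_le (Set.toFinite _))
      (Set.ncard_image_le (Set.toFinite _))
  omega

lemma acyc_bound [Finite V] {T : SimpleGraph V} (hT : T.IsAcyclic) {X : Set V}
    (hX : X.Nonempty) :
    {p : V × V | p.1 ∈ X ∧ p.2 ∈ X ∧ T.Adj p.1 p.2}.ncard + 2 ≤ 2 * X.ncard := by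
  have : Nonempty X := hX.to_subtype
  obtain ⟨F, hF1, -, hF2⟩ := (connected_top (V := X)).exists_isTree_le_of_le_of_isAcyclic
    (le_top : T.induce X ≤ ⊤) (hT.induce X)
  have h1 := dd_tree hF2
  rw [Nat.card_coe_set_eq] at h1
  have h2 : {p : V × V | p.1 ∈ X ∧ p.2 ∈ X ∧ T.Adj p.1 p.2}.ncard ≤ dd F := by
    have hsub : {p : V × V | p.1 ∈ X ∧ p.2 ∈ X ∧ T.Adj p.1 p.2} ⊆
        (fun p : X × X => ((p.1 : V), (p.2 : V))) '' {p : X × X | F.Adj p.1 p.2} := by
      rintro ⟨x, y⟩ ⟨h1, h2, h3⟩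
      exact ⟨(⟨x, h1⟩, ⟨y, h2⟩), hF1 (show (T.induce X).Adj ⟨x, h1⟩ ⟨y, h2⟩ from h3), rfl⟩
    exact (Set.ncard_le_ncard hsub (Set.toFinite _)).trans (Set.ncard_image_le (Set.toFinite _))
  omega

lemma ncard_pairs [Fintype V] (P : V → V → Prop) :
    {p : V × V | P p.1 p.2}.ncard = ∑ x, {y | P x y}.ncard := by
  classical
  simp_rw [Set.ncard_eq_toFinset_card', Set.toFinset_ofPred, Finset.card_filter]
  rw [Fintype.sum_prod_type]

lemma ncard_swap [Finite V] (X : Set V) (H : SimpleGraph V) :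
    {p : V × V | p.2 ∈ X ∧ H.Adj p.1 p.2}.ncard = {p : V × V | p.1 ∈ X ∧ H.Adj p.1 p.2}.ncard := by
  have : {p : V × V | p.2 ∈ X ∧ H.Adj p.1 p.2} =
      Prod.swap '' {p : V × V | p.1 ∈ X ∧ H.Adj p.1 p.2} := by
    ext ⟨x, y⟩
    constructor
    · exact fun h => ⟨(y, x), ⟨h.1, h.2.symm⟩, rfl⟩
    · rintro ⟨⟨a, b⟩, ⟨h1, h2⟩, h3⟩
      simp only [Prod.swap_prod_mk, Prod.mk.injEq] at h3
      obtain ⟨rfl, rfl⟩ := h3
      exact ⟨h1, h2.symm⟩
  rw [this, Set.ncard_image_of_injective _ Prod.swap_injective]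

lemma sum_at [Fintype V] (X : Set V) (H : SimpleGraph V) :
    {p : V × V | p.1 ∈ X ∧ H.Adj p.1 p.2}.ncard =
      ∑ x, {y | x ∈ X ∧ H.Adj x y}.ncard :=
  ncard_pairs (fun x y => x ∈ X ∧ H.Adj x y)

lemma sum_ite_eq_mul [Fintype V] (X : Set V) [DecidablePred (· ∈ X)] (d : ℕ) :
    ∑ x, (if x ∈ X then d else 0) = d * X.ncard := by
  classical
  rw [← Finset.sum_filter, Finset.sum_const, smul_eq_mul, mul_comm,
    Set.ncard_eq_toFinset_card']
  congr 2
  ext x
  simp

lemma le_ncard_at [Finite V] {X : Set V} {H : SimpleGraph V} {d : ℕ}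
    (h : ∀ x ∈ X, d ≤ (H.neighborSet x).ncard) :
    d * X.ncard ≤ {p : V × V | p.1 ∈ X ∧ H.Adj p.1 p.2}.ncard := by
  classical
  have := Fintype.ofFinite V
  rw [sum_at, ← sum_ite_eq_mul]
  refine Finset.sum_le_sum fun x _ => ?_
  by_cases hx : x ∈ X
  · rw [if_pos hx]
    refine (h x hx).trans (Set.ncard_le_ncard (fun y hy => ⟨hx, hy⟩) (Set.toFinite _))
  · rw [if_neg hx]
    exact Nat.zero_le _

lemma ncard_at_le [Finite V] {X : Set V} {H : SimpleGraph V} {d : ℕ}
    (h : ∀ x ∈ X, (H.neighborSet x).ncard ≤ d) :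
    {p : V × V | p.1 ∈ X ∧ H.Adj p.1 p.2}.ncard ≤ d * X.ncard := by
  classical
  have := Fintype.ofFinite V
  rw [sum_at, ← sum_ite_eq_mul]
  refine Finset.sum_le_sum fun x _ => ?_
  by_cases hx : x ∈ X
  · rw [if_pos hx]
    exact (Set.ncard_le_ncard (fun y hy => hy.2) (Set.toFinite _)).trans (h x hx)
  · rw [if_neg hx]
    have : {y | x ∈ X ∧ H.Adj x y} = ∅ := by
      ext y
      simp [hx]
    rw [this, Set.ncard_empty]

/-- Removing a set of vertices of degree at least 3 from a tree leaves many components. -/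
lemma count [Finite V] {T : SimpleGraph V} (hT : T.IsTree) {X : Set V} (hX : X.Nonempty)
    (h3 : ∀ x ∈ X, 3 ≤ (T.neighborSet x).ncard) :
    2 * X.ncard < Nat.card (del T X).ConnectedComponent := by
  have h1 := cc_bound (del T X)
  have h2 := dd_tree hT
  have h4 := acyc_bound hT.isAcyclic hX
  have h5 := le_ncard_at h3
  have h6 := ncard_swap X T
  have h7 := Set.ncard_union_add_ncard_inter {p : V × V | p.1 ∈ X ∧ T.Adj p.1 p.2}
    {p : V × V | p.2 ∈ X ∧ T.Adj p.1 p.2} (Set.toFinite _) (Set.toFinite _)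
  have h8 : {p : V × V | p.1 ∈ X ∧ T.Adj p.1 p.2} ∩ {p : V × V | p.2 ∈ X ∧ T.Adj p.1 p.2} =
      {p : V × V | p.1 ∈ X ∧ p.2 ∈ X ∧ T.Adj p.1 p.2} := by
    ext p
    constructor
    · exact fun h => ⟨h.1.1, h.2.1, h.1.2⟩
    · exact fun h => ⟨⟨h.1, h.2.2⟩, h.2.1, h.2.2⟩
  rw [h8] at h7
  have h9 : {p : V × V | T.Adj p.1 p.2} = {p : V × V | (del T X).Adj p.1 p.2} ∪
      ({p : V × V | p.1 ∈ X ∧ T.Adj p.1 p.2} ∪ {p : V × V | p.2 ∈ X ∧ T.Adj p.1 p.2}) := by
    ext p
    constructor
    · intro (h : T.Adj p.1 p.2)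
      by_cases ha : p.1 ∈ X
      · exact Or.inr (Or.inl ⟨ha, h⟩)
      by_cases hb : p.2 ∈ X
      · exact Or.inr (Or.inr ⟨hb, h⟩)
      exact Or.inl ⟨h, ha, hb⟩
    · rintro (h | h | h)
      · exact h.1
      · exact h.2
      · exact h.2
  have h10 : Disjoint {p : V × V | (del T X).Adj p.1 p.2}
      ({p : V × V | p.1 ∈ X ∧ T.Adj p.1 p.2} ∪ {p : V × V | p.2 ∈ X ∧ T.Adj p.1 p.2}) := by
    rw [Set.disjoint_left]
    rintro p h (h' | h')
    · exact h.2.1 h'.1
    · exact h.2.2 h'.1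
  have h11 := Set.ncard_union_eq h10 (Set.toFinite _) (Set.toFinite _)
  rw [← h9] at h11
  have h12 : dd T = {p : V × V | T.Adj p.1 p.2}.ncard := rfl
  have h13 : dd (del T X) = {p : V × V | (del T X).Adj p.1 p.2}.ncard := rfl
  omega

/-- The cut condition bounds the number of components. -/
lemma cuts [Finite V] {G T : SimpleGraph V} {d : ℕ} (h : RegConn G d) (hd : 2 ≤ d) {X : Set V}
    (hadj : ∀ u v, u ∉ X → v ∉ X → G.Adj u v → (del T X).Reachable u v)
    (hne : ∃ x ∈ X, ∃ y, T.Adj x y) :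
    Nat.card (del T X).ConnectedComponent ≤ 2 * X.ncard := by
  classical
  have := Fintype.ofFinite V
  have := Fintype.ofFinite (del T X).ConnectedComponent
  set D := del T X with hD
  set P : Finset (V × V) := Finset.univ.filter fun p =>
    G.Adj p.1 p.2 ∧ D.connectedComponentMk p.1 ≠ D.connectedComponentMk p.2 with hP
  have h1 : P.card = ∑ c : D.ConnectedComponent,
      (P.filter fun p => D.connectedComponentMk p.1 = c).card :=
    Finset.card_eq_sum_card_fiberwise fun _ _ => Finset.mem_coe.2 (Finset.mem_univ _)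
  have h2 : ∀ c : D.ConnectedComponent,
      d ≤ (P.filter fun p => D.connectedComponentMk p.1 = c).card := by
    intro c
    have hc1 : c.supp.Nonempty := c.nonempty_supp
    have hc2 : (c.supp)ᶜ.Nonempty := by
      obtain ⟨x, hx, y, hxy⟩ := hne
      by_contra hcon
      rw [Set.not_nonempty_iff_eq_empty, Set.compl_empty_iff] at hcon
      have hxc : x ∈ c.supp := hcon ▸ Set.mem_univ x
      have hyc : y ∈ c.supp := hcon ▸ Set.mem_univ y
      have h3 : D.Reachable x y := c.reachable_of_mem_supp hxc hyc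
      have h4 := reach_mem h3 hx
      exact hxy.ne h4.symm
    refine (h.cut c.supp hc1 hc2).trans ?_
    rw [← Set.ncard_coe_finset]
    refine Set.ncard_le_ncard ?_ (Set.toFinite _)
    rintro p ⟨h3, h4, h5⟩
    simp only [hP, Finset.coe_filter, Finset.mem_filter, Finset.mem_univ, true_and,
      Set.mem_ofPred_eq]
    have h3' : D.connectedComponentMk p.1 = c := h3
    exact ⟨⟨h5, fun h6 => h4 (h6.symm.trans h3')⟩, h3'⟩
  have h3 : d * Nat.card D.ConnectedComponent ≤ P.card := by
    rw [h1, Nat.card_eq_fintype_card, mul_comm, ← smul_eq_mul, ← Finset.card_univ,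
      ← Finset.sum_const]
    exact Finset.sum_le_sum fun c _ => h2 c
  have h4 : P.card ≤ d * X.ncard + d * X.ncard := by
    rw [← Set.ncard_coe_finset]
    have hsub : (P : Set (V × V)) ⊆ {p : V × V | p.1 ∈ X ∧ G.Adj p.1 p.2} ∪
        {p : V × V | p.2 ∈ X ∧ G.Adj p.1 p.2} := by
      intro p hp
      simp only [hP, Finset.coe_filter, Finset.mem_univ, true_and, Set.mem_ofPred_eq] at hp
      by_cases ha : p.1 ∈ X
      · exact Or.inl ⟨ha, hp.1⟩
      by_cases hb : p.2 ∈ X
      · exact Or.inr ⟨hb, hp.1⟩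
      exact absurd (ConnectedComponent.sound (hadj _ _ ha hb hp.1)) hp.2
    refine (Set.ncard_le_ncard hsub (Set.toFinite _)).trans ?_
    refine (Set.ncard_union_le _ _).trans ?_
    rw [ncard_swap]
    exact Nat.add_le_add (ncard_at_le fun x _ => (h.reg x).le)
      (ncard_at_le fun x _ => (h.reg x).le)
  have h5 : d * Nat.card D.ConnectedComponent ≤ d * (2 * X.ncard) := by
    rw [show d * (2 * X.ncard) = d * X.ncard + d * X.ncard by ring]
    exact h3.trans h4
  exact Nat.le_of_mul_le_mul_left h5 (by omega)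

/-- One step down in the maximum degree. -/
lemma step [Finite V] {G : SimpleGraph V} {d k : ℕ} (h : RegConn G d) (hd : 2 ≤ d) (hk : 3 ≤ k)
    {H : SimpleGraph V} (hH : H ≤ G) (hc : H.Connected)
    (hdeg : ∀ v, (H.neighborSet v).ncard ≤ k + 1) :
    ∃ H' : SimpleGraph V, H' ≤ G ∧ H'.Connected ∧ ∀ v, (H'.neighborSet v).ncard ≤ k := by
  classical
  have hP : ∃ n, ∃ H : SimpleGraph V, H ≤ G ∧ H.Connected ∧
      (∀ v, (H.neighborSet v).ncard ≤ k + 1) ∧ {v | (H.neighborSet v).ncard = k + 1}.ncard = n :=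
    ⟨_, H, hH, hc, hdeg, rfl⟩
  obtain ⟨H0, hH0, hc0, hd0, hn0⟩ := Nat.find_spec hP
  have hmin : ∀ H : SimpleGraph V, H ≤ G → H.Connected →
      (∀ v, (H.neighborSet v).ncard ≤ k + 1) →
      Nat.find hP ≤ {v | (H.neighborSet v).ncard = k + 1}.ncard :=
    fun H h1 h2 h3 => Nat.find_min' hP ⟨H, h1, h2, h3, rfl⟩
  rcases Nat.eq_zero_or_pos (Nat.find hP) with hz | hpos
  · refine ⟨H0, hH0, hc0, fun v => ?_⟩
    rw [hz, Set.ncard_eq_zero (Set.toFinite _)] at hn0
    have h1 : (H0.neighborSet v).ncard ≠ k + 1 := by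
      intro h2
      have h3 : v ∈ ({v | (H0.neighborSet v).ncard = k + 1} : Set V) := h2
      rw [hn0] at h3
      exact h3
    have := hd0 v
    omega
  · exfalso
    obtain ⟨T, hTH, hT⟩ := hc0.exists_isTree_le
    have hTG : T ≤ G := hTH.trans hH0
    have hTd' : ∀ v, (T.neighborSet v).ncard ≤ (H0.neighborSet v).ncard := fun v =>
      Set.ncard_le_ncard (fun _ hy => hTH hy) (Set.toFinite _)
    have hTd : ∀ v, (T.neighborSet v).ncard ≤ k + 1 := fun v => (hTd' v).trans (hd0 v)
    have hST : {v | (T.neighborSet v).ncard = k + 1}.ncard ≤ Nat.find hP := by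
      rw [← hn0]
      refine Set.ncard_le_ncard ?_ (Set.toFinite _)
      intro v (hv : (T.neighborSet v).ncard = k + 1)
      exact le_antisymm (hd0 v) (hv ▸ hTd' v)
    have hmT := hmin T hTG hT.connected hTd
    obtain ⟨X, hSX, hXk, hXadj⟩ := exists_closed hTG hT.connected hTd
      (fun H h1 h2 h3 => hST.trans (hmin H h1 h2 h3))
    have hSne : ({v | (T.neighborSet v).ncard = k + 1} : Set V).Nonempty := by
      rw [← Set.ncard_pos (Set.toFinite _)]
      omega
    have hXne : X.Nonempty := hSne.mono hSX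
    have h1 := count hT hXne fun x hx => hk.trans (hXk x hx)
    have h2 := cuts (T := T) h hd hXadj (by
      obtain ⟨x, hx⟩ := hXne
      have h3 : 0 < (T.neighborSet x).ncard := by
        have := hXk x hx
        omega
      rw [Set.ncard_pos (Set.toFinite _)] at h3
      obtain ⟨y, hy⟩ := h3
      exact ⟨x, hx, y, hy⟩)
    omega

end Win

/-- Win's theorem for regular graphs with large edge cuts: there is a connected spanning subgraph
in which every vertex has degree at most 3. -/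
theorem exists_connected_three {V : Type*} [Finite V] {G : SimpleGraph V} {d : ℕ}
    (h : RegConn G d) (hd : 2 ≤ d) :
    ∃ T : SimpleGraph V, T ≤ G ∧ T.Connected ∧ ∀ v, (T.neighborSet v).ncard ≤ 3 := by
  have key : ∀ k, (∃ H : SimpleGraph V, H ≤ G ∧ H.Connected ∧
      ∀ v, (H.neighborSet v).ncard ≤ k + 3) →
      ∃ H : SimpleGraph V, H ≤ G ∧ H.Connected ∧ ∀ v, (H.neighborSet v).ncard ≤ 3 := by
    intro k
    induction k with
    | zero => exact id
    | succ k ih =>
      rintro ⟨H, h1, h2, h3⟩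
      exact ih (Win.step h hd (by omega) h1 h2 fun v => (h3 v).trans (by omega))
  exact key d ⟨G, le_rfl, h.conn, fun v => (h.reg v).le.trans (by omega)⟩

end PolyProd
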