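import Pool.Agent.PolyProd.Assemble
import Pool.Agent.PolyProd.TwoFactor
import Pool.Agent.PolyProd.Win
import Pool.Agent.FlagHam.Ham

/-!
# Products of regular highly edge-connected graphs have Hamilton cycles
-/

namespace PolyProd

open FlagHam

open scoped SimpleGraph

variable {X Y : Type*} {G : SimpleGraph X} {H : SimpleGraph Y}

theorem product_cyc_of_le [Finite X] [Finite Y] {d e : ℕ} (hG : RegConn G d)
    (hH : RegConn H e) (hd : 2 ≤ d) (he : 2 ≤ e) (hcard : Nat.card X ≤ Nat.card Y) :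
    ∃ τ : Equiv.Perm (X × Y), Cyc (G □ H).Adj Set.univ τ := by
  obtain ⟨γ, hγ⟩ := exists_two_factor hG hd
  obtain ⟨T, hTH, hT, hdeg⟩ := exists_connected_three hH he
  exact assemble hG.conn hγ hTH hT hdeg hcard

theorem product_cyc [Finite X] [Finite Y] {d e : ℕ} (hG : RegConn G d)
    (hH : RegConn H e) (hd : 2 ≤ d) (he : 2 ≤ e) :
    ∃ τ : Equiv.Perm (X × Y), Cyc (G □ H).Adj Set.univ τ := by
  rcases le_total (Nat.card X) (Nat.card Y) with h | h
  · exact product_cyc_of_le hG hH hd he h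
  · obtain ⟨τ, hτ⟩ := product_cyc_of_le hH hG he hd h
    have h1 := hτ.map (adj' := (G □ H).Adj) (Equiv.prodComm Y X).toEmbedding (by
      rintro ⟨y, x⟩ ⟨y', x'⟩ hadj
      rw [SimpleGraph.boxProd_adj] at hadj ⊢
      exact hadj.symm)
    refine ⟨τ.viaEmbedding (Equiv.prodComm Y X).toEmbedding, ?_⟩
    have h2 : (Equiv.prodComm Y X).toEmbedding '' Set.univ = Set.univ := by
      ext ⟨x, y⟩
      constructor
      · intro _
        exact Set.mem_univ _
      · intro _
        exact ⟨(y, x), Set.mem_univ _, rfl⟩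
    rw [h2] at h1
    exact h1

/-- A vertex with two different neighbours. -/
theorem two_neighbours [Finite X] {d : ℕ} (hG : RegConn G d) (hd : 2 ≤ d) :
    ∃ a b c : X, a ≠ b ∧ a ≠ c ∧ b ≠ c := by
  obtain ⟨a⟩ := hG.conn.nonempty
  have h1 : 1 < (G.neighborSet a).ncard := by rw [hG.reg a]; omega
  obtain ⟨b, hb, c, hc, hbc⟩ := (Set.one_lt_ncard (Set.toFinite _)).mp h1
  exact ⟨a, b, c, G.ne_of_adj hb, G.ne_of_adj hc, hbc⟩

/-- **The product theorem.** -/
theorem product_hamiltonian [Finite X] [Finite Y] {d e : ℕ} (hG : RegConn G d)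
    (hH : RegConn H e) (hd : 2 ≤ d) (he : 2 ≤ e) [DecidableEq (X × Y)] :
    ∃ (v : X × Y) (p : (G □ H).Walk v v), p.IsHamiltonianCycle := by
  obtain ⟨τ, hτ⟩ := product_cyc hG hH hd he
  obtain ⟨a, b, c, hab, hac, hbc⟩ := two_neighbours hG hd
  obtain ⟨y⟩ := hH.conn.nonempty
  refine hamiltonian_of_cyclic (f := τ) (fun v => hτ.adj v (Set.mem_univ v))
    (fun u v => hτ.trans u (Set.mem_univ u) v (Set.mem_univ v)) ⟨(a, y), (b, y), (c, y), ?_, ?_, ?_⟩
  · exact fun h => hab (Prod.mk.inj h).1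
  · exact fun h => hac (Prod.mk.inj h).1
  · exact fun h => hbc (Prod.mk.inj h).1

end PolyProd
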