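import Pool.Agent.PolyProd.Glue

/-!
# The product of a graph with a 2-factor and a larger graph of maximum degree three
-/

namespace PolyProd

open FlagHam

open scoped SimpleGraph

variable {X Y : Type*} {G : SimpleGraph X} {H T : SimpleGraph Y}

/-- Merging along the parent edges of the orbits. -/
theorem assemble_aux [Finite X] [Finite Y] {γ : Equiv.Perm X} {q₀ : Orb γ} {ρ : Orb γ → ℕ}
    {xx zz : Orb γ → X} (hpar : ∀ q, q ≠ q₀ →
      orb γ (zz q) = q ∧ G.Adj (xx q) (zz q) ∧ ρ (orb γ (xx q)) < ρ q)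
    {u v : Orb γ → Y}
    (hdisj : ∀ q q', q ≠ q' → u q' ≠ u q ∧ u q' ≠ v q ∧ v q' ≠ u q ∧ v q' ≠ v q)
    {Z : Orb γ → Equiv.Perm (X × Y)}
    (hZ : ∀ q, Cyc (G □ H).Adj ({x | orb γ x = q} ×ˢ Set.univ) (Z q))
    (hZx : ∀ q q', q' ≠ q₀ → orb γ (xx q') = q → E (Z q) (xx q', u q') (xx q', v q'))
    (hZz : ∀ q, q ≠ q₀ → E (Z q) (zz q, u q) (zz q, v q)) :
    ∃ τ : Equiv.Perm (X × Y), Cyc (G □ H).Adj Set.univ τ := by
  classical
  have : Finite (Orb γ) := inferInstance
  -- the states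
  let State : Set (Orb γ) → Equiv.Perm (X × Y) → Prop := fun D τ =>
    Cyc (G □ H).Adj ({x | orb γ x ∈ D} ×ˢ Set.univ) τ ∧
      ∀ q', q' ∉ D → q' ≠ q₀ → orb γ (xx q') ∈ D → E τ (xx q', u q') (xx q', v q')
  have hstart : State {q₀} (Z q₀) := by
    refine ⟨hZ q₀, ?_⟩
    intro q' _ hne hq'
    exact hZx q₀ q' hne hq'
  have hstep : ∀ D τ, q₀ ∈ D → State D τ → Dᶜ.Nonempty →
      ∃ q τ', q ∉ D ∧ State (D ∪ {q}) τ' := by
    intro D τ hD hst hne
    obtain ⟨q, hq, hmin⟩ := Set.exists_min_image Dᶜ ρ (Set.toFinite _) hne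
    have hqD : q ∉ D := hq
    have hq0 : q ≠ q₀ := fun h => hqD (h ▸ hD)
    obtain ⟨hzq, hadj, hlt⟩ := hpar q hq0
    have hxD : orb γ (xx q) ∈ D := by
      by_contra hn
      have := hmin _ hn
      omega
    have hdis : Disjoint ({x | orb γ x ∈ D} ×ˢ (Set.univ : Set Y))
        ({x | orb γ x = q} ×ˢ Set.univ) := by
      rw [Set.disjoint_left]
      rintro ⟨x, y⟩ ⟨h1, _⟩ ⟨h2, _⟩
      exact hqD (h2 ▸ h1)
    obtain ⟨τ', hcyc, _, _, t1, t2⟩ := Cyc.merge₂ hst.1 (hZ q) (fun _ _ h => h.symm) hdis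
      (a := (xx q, u q)) (b := (xx q, v q)) (c := (zz q, u q)) (d := (zz q, v q))
      ⟨hxD, Set.mem_univ _⟩ ⟨hxD, Set.mem_univ _⟩ ⟨hzq, Set.mem_univ _⟩ ⟨hzq, Set.mem_univ _⟩
      (hst.2 q hqD hq0 hxD) (hZz q hq0)
      (by rw [SimpleGraph.boxProd_adj]; exact Or.inl ⟨hadj, rfl⟩)
      (by rw [SimpleGraph.boxProd_adj]; exact Or.inl ⟨hadj, rfl⟩)
    refine ⟨q, τ', hqD, ?_, ?_⟩
    · have hset : ({x | orb γ x ∈ D ∪ {q}} ×ˢ (Set.univ : Set Y)) =
          ({x | orb γ x ∈ D} ×ˢ Set.univ) ∪ ({x | orb γ x = q} ×ˢ Set.univ) := by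
        ext ⟨x, y⟩
        simp only [Set.mem_prod, Set.mem_ofPred_eq, Set.mem_univ, and_true, Set.mem_union,
          Set.mem_singleton_iff]
      rw [hset]
      exact hcyc
    · intro q' hq' hq'0 hx'
      have hq'D : q' ∉ D := fun h => hq' (Or.inl h)
      have hq'q : q ≠ q' := fun h => hq' (Or.inr h.symm)
      obtain ⟨d1, d2, d3, d4⟩ := hdisj q q' hq'q
      rcases hx' with hx' | hx'
      · have m1 : ∀ y : Y, ((xx q', y) : X × Y) ∈
            {x | orb γ x ∈ D} ×ˢ (Set.univ : Set Y) := fun y => ⟨hx', Set.mem_univ _⟩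
        refine t1 _ (m1 _) _ (m1 _) (hst.2 q' hq'D hq'0 hx') ?_ ?_
        · rintro ⟨h1, _⟩
          exact d1 (Prod.mk.inj h1).2
        · rintro ⟨h1, _⟩
          exact d2 (Prod.mk.inj h1).2
      · rw [Set.mem_singleton_iff] at hx'
        have m1 : ∀ y : Y, ((xx q', y) : X × Y) ∈
            {x | orb γ x = q} ×ˢ (Set.univ : Set Y) := fun y => ⟨hx', Set.mem_univ _⟩
        refine t2 _ (m1 _) _ (m1 _) (hZx q q' hq'0 hx') ?_ ?_
        · rintro ⟨h1, _⟩
          exact d1 (Prod.mk.inj h1).2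
        · rintro ⟨h1, _⟩
          exact d2 (Prod.mk.inj h1).2
  have key : ∀ n : ℕ, ∀ D τ, q₀ ∈ D → State D τ → Dᶜ.ncard ≤ n →
      ∃ τ, State Set.univ τ := by
    intro n
    induction n with
    | zero =>
      intro D τ _ hst hn
      have h4 : Dᶜ = ∅ := by
        rw [← Set.ncard_eq_zero (Set.toFinite _)]
        omega
      rw [Set.compl_empty_iff] at h4
      rw [← h4]
      exact ⟨τ, hst⟩
    | succ n ih =>
      intro D τ hD hst hn
      by_cases hne : Dᶜ.Nonempty
      · obtain ⟨q, τ', hq, hst'⟩ := hstep D τ hD hst hne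
        refine ih (D ∪ {q}) τ' (Or.inl hD) hst' ?_
        have h5 : (D ∪ {q})ᶜ.ncard < Dᶜ.ncard := by
          refine Set.ncard_lt_ncard ⟨?_, ?_⟩ (Set.toFinite _)
          · exact Set.compl_subset_compl.mpr Set.subset_union_left
          · intro h5
            exact (h5 hq) (Or.inr rfl)
        omega
      · rw [Set.not_nonempty_iff_eq_empty, Set.compl_empty_iff] at hne
        rw [← hne]
        exact ⟨τ, hst⟩
  obtain ⟨τ, hτ, _⟩ := key _ {q₀} (Z q₀) rfl hstart le_rfl
  refine ⟨τ, ?_⟩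
  have hset : ({x | orb γ x ∈ (Set.univ : Set (Orb γ))} ×ˢ (Set.univ : Set Y)) =
      (Set.univ : Set (X × Y)) := by
    ext ⟨x, y⟩
    simp
  rw [hset] at hτ
  exact hτ

/-- **The assembly.** If `G` is connected with a 2-factor and `H` has a connected spanning
subgraph of maximum degree at most three and at least as many vertices as `G`, then the product
has a Hamilton cycle. -/
theorem assemble [Finite X] [Finite Y] (hG : G.Connected) {γ : Equiv.Perm X}
    (hγ : ∀ x, G.Adj x (γ x) ∧ γ (γ x) ≠ x) (hTH : T ≤ H) (hT : T.Connected)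
    (hdeg : ∀ v, (T.neighborSet v).ncard ≤ 3) (hcard : Nat.card X ≤ Nat.card Y) :
    ∃ τ : Equiv.Perm (X × Y), Cyc (G □ H).Adj Set.univ τ := by
  classical
  obtain ⟨q₀, ρ, xx, zz, hpar⟩ := exists_parent hG γ
  obtain ⟨𝓜, hM1, hM2, hM3⟩ := exists_matching hT hdeg
  have hle : Nat.card (Orb γ) ≤ 𝓜.card := by
    have := card_orb hγ
    omega
  have := Fintype.ofFinite (Orb γ)
  obtain ⟨t⟩ : Nonempty (Orb γ ↪ 𝓜) := by
    apply Function.Embedding.nonempty_of_card_le
    rw [Fintype.card_coe, ← Nat.card_eq_fintype_card]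
    exact hle
  -- the ends of the matching edges
  have hends : ∀ q, ∃ a b : Y, (t q : Sym2 Y) = s(a, b) := by
    intro q
    induction (t q : Sym2 Y) using Sym2.ind with
    | _ a b => exact ⟨a, b, rfl⟩
  choose u v huv using hends
  have hadj : ∀ q, T.Adj (u q) (v q) := by
    intro q
    have h1 := hM1 _ (t q).2
    rw [huv q] at h1
    exact h1
  have hmemu : ∀ q, u q ∈ (t q : Sym2 Y) := fun q => by rw [huv q]; exact Sym2.mem_mk_left _ _
  have hmemv : ∀ q, v q ∈ (t q : Sym2 Y) := fun q => by rw [huv q]; exact Sym2.mem_mk_right _ _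
  have huniq : ∀ q q' y, y ∈ (t q : Sym2 Y) → y ∈ (t q' : Sym2 Y) → q = q' := by
    intro q q' y hy hy'
    exact t.injective (Subtype.ext (hM2 _ (t q).2 _ (t q').2 y hy hy'))
  have hdisj : ∀ q q', q ≠ q' → u q' ≠ u q ∧ u q' ≠ v q ∧ v q' ≠ u q ∧ v q' ≠ v q := by
    intro q q' hne
    refine ⟨?_, ?_, ?_, ?_⟩
    · intro h; exact hne (huniq q q' (u q) (hmemu q) (h ▸ hmemu q'))
    · intro h; exact hne (huniq q q' (v q) (hmemv q) (h ▸ hmemu q'))
    · intro h; exact hne (huniq q q' (u q) (hmemu q) (h ▸ hmemv q'))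
    · intro h; exact hne (huniq q q' (v q) (hmemv q) (h ▸ hmemv q'))
  -- the prescribed points
  let pt : Orb γ → Orb γ → X := fun q q' =>
    if orb γ (xx q') = q then xx q' else if orb γ (zz q') = q then zz q' else Quotient.out q
  have hpt : ∀ q q', orb γ (pt q q') = q := by
    intro q q'
    change orb γ (if orb γ (xx q') = q then xx q' else if orb γ (zz q') = q then zz q'
      else Quotient.out q) = q
    split_ifs with h1 h2
    · exact h1
    · exact h2
    · exact orb_out q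
  let f : Orb γ → Y → X := fun q y =>
    if h : ∃ q', y ∈ (t q' : Sym2 Y) then pt q (Classical.choose h) else Quotient.out q
  have hf : ∀ q y, orb γ (f q y) = q := by
    intro q y
    change orb γ (if h : ∃ q', y ∈ (t q' : Sym2 Y) then pt q (Classical.choose h)
      else Quotient.out q) = q
    split_ifs with h
    · exact hpt q _
    · exact orb_out q
  have hft : ∀ q q' y, y ∈ (t q' : Sym2 Y) → f q y = pt q q' := by
    intro q q' y hy
    have hex : ∃ q', y ∈ (t q' : Sym2 Y) := ⟨q', hy⟩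
    have h1 : f q y = pt q (Classical.choose hex) := dif_pos hex
    rw [h1, huniq _ q' y (Classical.choose_spec hex) hy]
  -- the matching relation
  let M : Y → Y → Prop := fun a b => ∃ q, (t q : Sym2 Y) = s(a, b)
  have hMs : ∀ a b, M a b → M b a := by
    rintro a b ⟨q, hq⟩
    exact ⟨q, by rw [hq]; exact Sym2.eq_swap⟩
  have hMT : ∀ a b, M a b → T.Adj a b := by
    rintro a b ⟨q, hq⟩
    have h1 := hM1 _ (t q).2
    rw [hq] at h1
    exact h1
  have hMu : ∀ a b c, M a b → M a c → b = c := by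
    rintro a b c ⟨q, hq⟩ ⟨q', hq'⟩
    have h1 : q = q' := huniq q q' a (by rw [hq]; exact Sym2.mem_mk_left _ _)
      (by rw [hq']; exact Sym2.mem_mk_left _ _)
    subst h1
    rw [hq] at hq'
    exact Sym2.congr_right.mp hq'
  have hfM : ∀ q a b, M a b → f q a = f q b := by
    rintro q a b ⟨q', hq'⟩
    rw [hft q q' a (by rw [hq']; exact Sym2.mem_mk_left _ _),
      hft q q' b (by rw [hq']; exact Sym2.mem_mk_right _ _)]
  have hfib : ∀ q, ∃ τ : Equiv.Perm (X × Y),
      Cyc (G □ H).Adj ({x | orb γ x = q} ×ˢ Set.univ) τ ∧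
        ∀ a b, M a b → E τ (f q a, a) (f q a, b) := by
    intro q
    exact fibre (orb_cyc (fun x => (hγ x).1) q) (orb_three (fun x => (hγ x).2) q) hTH hT hdeg
      hMs hMT hMu (hf q) (hfM q)
  choose Z hZ hZE using hfib
  refine assemble_aux hpar hdisj hZ ?_ ?_
  · intro q q' hq'0 hx
    have h1 := hZE q (u q') (v q') ⟨q', huv q'⟩
    rw [hft q q' (u q') (hmemu q')] at h1
    have h2 : pt q q' = xx q' := if_pos hx
    rw [h2] at h1
    exact h1
  · intro q hq0
    obtain ⟨h4, _, h5⟩ := hpar q hq0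
    have h1 := hZE q (u q) (v q) ⟨q, huv q⟩
    rw [hft q q (u q) (hmemu q)] at h1
    have hne : orb γ (xx q) ≠ q := by
      intro h
      rw [h] at h5
      exact lt_irrefl _ h5
    have h2 : pt q q = zz q := by
      change (if orb γ (xx q) = q then xx q else if orb γ (zz q) = q then zz q
        else Quotient.out q) = zz q
      rw [if_neg hne, if_pos h4]
    rw [h2] at h1
    exact h1

end PolyProd
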