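import Mathlib.Combinatorics.SimpleGraph.Prod
import Mathlib.Combinatorics.SimpleGraph.Connectivity.Connected
import Mathlib.Combinatorics.SimpleGraph.Hamiltonian
import Mathlib.Data.Set.Card
import Mathlib.Tactic

/-!
# Products of regular highly edge-connected graphs: definitions
-/

namespace PolyProd

/-- `G` is connected, every vertex has exactly `d` neighbours, and every edge cut has at least `d`
edges: for every set `K` of vertices different from the empty set and from the whole vertex set
there are at least `d` ordered pairs `(x, y)` of adjacent vertices with `x` in `K` and `y` not in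
`K`. -/
structure RegConn {V : Type*} (G : SimpleGraph V) (d : ℕ) : Prop where
  /-- The graph is connected. -/
  conn : G.Connected
  /-- Every vertex has exactly `d` neighbours. -/
  reg : ∀ v, (G.neighborSet v).ncard = d
  /-- Every edge cut has at least `d` edges. -/
  cut : ∀ K : Set V, K.Nonempty → Kᶜ.Nonempty →
    d ≤ {p : V × V | p.1 ∈ K ∧ p.2 ∉ K ∧ G.Adj p.1 p.2}.ncard

end PolyProd
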