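import Pool.Agent.PolyProd.Merge
import Pool.Agent.PolyProd.Defs

/-!
# The product of a cycle with a graph of maximum degree three
-/

namespace PolyProd

open FlagHam

open scoped SimpleGraph

variable {X Y : Type*} {G : SimpleGraph X} {H T : SimpleGraph Y}

/-- The embedding of the layer of `y`. -/
def emb (X : Type*) {Y : Type*} (y : Y) : X ↪ X × Y := ⟨fun x => (x, y), fun _ _ h => (Prod.mk.inj h).1⟩

theorem emb_apply (y : Y) (x : X) : emb X y x = (x, y) := rfl

theorem emb_image (y : Y) (C : Set X) : emb X y '' C = C ×ˢ {y} := by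
  ext ⟨x, z⟩
  constructor
  · rintro ⟨w, hw, h⟩
    obtain ⟨rfl, rfl⟩ := Prod.mk.inj h
    exact ⟨hw, rfl⟩
  · rintro ⟨hx, hz⟩
    change z = y at hz
    subst hz
    exact ⟨x, hx, rfl⟩

theorem layer_cyc {σ : Equiv.Perm X} {C : Set X} (hC : Cyc G.Adj C σ) (y : Y) :
    Cyc (G □ H).Adj (C ×ˢ {y}) (σ.viaEmbedding (emb X y)) := by
  rw [← emb_image]
  refine hC.map (emb X y) ?_
  intro x x' hxx'
  rw [SimpleGraph.boxProd_adj]
  exact Or.inl ⟨hxx', rfl⟩

theorem layer_E {σ : Equiv.Perm X} (y : Y) (x : X) :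
    E (σ.viaEmbedding (emb X y)) (x, y) (σ x, y) :=
  (E_map (σ := σ) (emb X y) x (σ x)).mpr (Or.inl rfl)

/-- The state of the construction. -/
structure St (G : SimpleGraph X) (H T : SimpleGraph Y) (σ : Equiv.Perm X) (C : Set X) (S : Set Y)
    (τ : Equiv.Perm (X × Y)) (U : Y → Set X) : Prop where
  cyc : Cyc (G □ H).Adj (C ×ˢ S) τ
  free : ∀ s ∈ S, ∀ p ∈ C, p ∉ U s → E τ (p, s) (σ p, s)
  card : ∀ s ∈ S, (U s).ncard ≤ {s' | s' ∈ S ∧ T.Adj s s'}.ncard

theorem St.start {σ : Equiv.Perm X} {C : Set X} (hC : Cyc G.Adj C σ) (y : Y) :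
    St G H T σ C {y} (σ.viaEmbedding (emb X y)) (fun _ => ∅) := by
  refine ⟨layer_cyc hC y, ?_, ?_⟩
  · rintro s rfl p _ _
    exact layer_E s p
  · intro s _
    rw [Set.ncard_empty]
    exact Nat.zero_le _

theorem St.step [Finite X] [Finite Y] {σ : Equiv.Perm X} {C : Set X} (hC : Cyc G.Adj C σ)
    (h3 : ∀ x ∈ C, σ (σ x) ≠ x) (hTH : T ≤ H) {S : Set Y} {τ : Equiv.Perm (X × Y)}
    {U : Y → Set X} (h : St G H T σ C S τ U) {y y' : Y} (hy : y ∈ S) (hy' : y' ∉ S)
    (hT : T.Adj y y') {p : X} (hp : p ∈ C) (hpU : p ∉ U y) :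
    ∃ (τ' : Equiv.Perm (X × Y)) (U' : Y → Set X), St G H T σ C (S ∪ {y'}) τ' U' ∧ U' y' = {p} ∧
      E τ' (p, y) (p, y') ∧ E τ' (σ p, y) (σ p, y') ∧
      (∀ s ∈ S, ∀ s' ∈ S, s ≠ s' → ∀ x ∈ C, E τ (x, s) (x, s') → E τ' (x, s) (x, s')) := by
  classical
  have hσp := hC.mem hp
  have hpne : σ p ≠ p := fun h => G.ne_of_adj (hC.adj p hp) h.symm
  have hyy' : y ≠ y' := fun h => hy' (h ▸ hy)
  have hlay := layer_cyc (H := H) hC y'
  have hdis : Disjoint (C ×ˢ S) (C ×ˢ {y'}) := by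
    rw [Set.disjoint_left]
    rintro ⟨x, z⟩ ⟨_, hz⟩ ⟨_, hz'⟩
    exact hy' (hz' ▸ hz)
  obtain ⟨τ', hcyc, n1, n2, t1, t2⟩ := Cyc.merge₂ h.cyc hlay (fun _ _ h => h.symm) hdis
    (a := (p, y)) (b := (σ p, y)) (c := (p, y')) (d := (σ p, y'))
    ⟨hp, hy⟩ ⟨hσp, hy⟩ ⟨hp, rfl⟩ ⟨hσp, rfl⟩ (h.free y hy p hp hpU) (layer_E y' p)
    (by rw [SimpleGraph.boxProd_adj]; exact Or.inr ⟨hTH hT, rfl⟩)
    (by rw [SimpleGraph.boxProd_adj]; exact Or.inr ⟨hTH hT, rfl⟩)
  refine ⟨τ', fun s => if s = y' then {p} else if s = y then insert p (U y) else U s,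
    ⟨?_, ?_, ?_⟩, ?_, n1, n2, ?_⟩
  · rw [Set.prod_union]
    exact hcyc
  · rintro s hs q hq hqU
    by_cases hsy' : s = y'
    · subst hsy'
      simp only [if_true] at hqU
      have hqp : q ≠ p := fun h => hqU h
      refine t2 _ ⟨hq, Set.mem_singleton _⟩ _ ⟨hC.mem hq, Set.mem_singleton _⟩ (layer_E s q)
        ?_ ?_
      · rintro ⟨h1, _⟩
        exact hqp (Prod.mk.inj h1).1
      · rintro ⟨h1, h2⟩
        have e1 := (Prod.mk.inj h1).1
        have e2 := (Prod.mk.inj h2).1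
        rw [e1] at e2
        exact h3 p hp e2
    · have hsS : s ∈ S := by
        rcases hs with hs | hs
        · exact hs
        · exact absurd hs hsy'
      simp only [if_neg hsy'] at hqU
      by_cases hsy : s = y
      · subst hsy
        simp only [if_true] at hqU
        have hqp : q ≠ p := fun h => hqU (Or.inl h)
        have hqU' : q ∉ U s := fun h => hqU (Or.inr h)
        refine t1 _ ⟨hq, hy⟩ _ ⟨hC.mem hq, hy⟩ (h.free s hy q hq hqU') ?_ ?_
        · rintro ⟨h1, _⟩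
          exact hqp (Prod.mk.inj h1).1
        · rintro ⟨h1, h2⟩
          have e1 := (Prod.mk.inj h1).1
          have e2 := (Prod.mk.inj h2).1
          rw [e1] at e2
          exact h3 p hp e2
      · simp only [if_neg hsy] at hqU
        refine t1 _ ⟨hq, hsS⟩ _ ⟨hC.mem hq, hsS⟩ (h.free s hsS q hq hqU) ?_ ?_
        · rintro ⟨h1, _⟩
          exact hsy (Prod.mk.inj h1).2
        · rintro ⟨h1, _⟩
          exact hsy (Prod.mk.inj h1).2
  · intro s hs
    by_cases hsy' : s = y'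
    · subst hsy'
      simp only [if_true]
      rw [Set.ncard_singleton]
      have : ({y} : Set Y) ⊆ {s' | s' ∈ S ∪ {s} ∧ T.Adj s s'} := by
        rintro z rfl
        exact ⟨Or.inl hy, hT.symm⟩
      have h1 := Set.ncard_le_ncard this (Set.toFinite _)
      rw [Set.ncard_singleton] at h1
      exact h1
    · have hsS : s ∈ S := by
        rcases hs with hs | hs
        · exact hs
        · exact absurd hs hsy'
      simp only [if_neg hsy']
      by_cases hsy : s = y
      · subst hsy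
        simp only [if_true]
        have h1 : (insert p (U s)).ncard ≤ (U s).ncard + 1 := Set.ncard_insert_le _ _
        have h2 := h.card s hy
        have h4 : insert y' {s' | s' ∈ S ∧ T.Adj s s'} ⊆ {s' | s' ∈ S ∪ {y'} ∧ T.Adj s s'} := by
          rintro z (rfl | ⟨hz, hz'⟩)
          · exact ⟨Or.inr rfl, hT⟩
          · exact ⟨Or.inl hz, hz'⟩
        have h5 := Set.ncard_le_ncard h4 (Set.toFinite _)
        rw [Set.ncard_insert_of_notMem (fun h => hy' h.1) (Set.toFinite _)] at h5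
        omega
      · simp only [if_neg hsy]
        refine (h.card s hsS).trans (Set.ncard_le_ncard ?_ (Set.toFinite _))
        rintro z ⟨hz, hz'⟩
        exact ⟨Or.inl hz, hz'⟩
  · simp only [if_true]
  · intro s hs s' hs' hne x hx hE
    refine t1 _ ⟨hx, hs⟩ _ ⟨hx, hs'⟩ hE ?_ ?_
    · rintro ⟨h1, h2⟩
      exact hne ((Prod.mk.inj h1).2.trans (Prod.mk.inj h2).2.symm)
    · rintro ⟨h1, h2⟩
      exact hne ((Prod.mk.inj h1).2.trans (Prod.mk.inj h2).2.symm)

/-- The settled states. -/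
def Settled (G : SimpleGraph X) (H T : SimpleGraph Y) (σ : Equiv.Perm X) (C : Set X)
    (M : Y → Y → Prop) (f : Y → X) (S : Set Y) : Prop :=
  ∃ (τ : Equiv.Perm (X × Y)) (U : Y → Set X), St G H T σ C S τ U ∧
    ∀ s ∈ S, ∀ s', M s s' → s' ∈ S ∧ E τ (f s, s) (f s, s')

theorem settle [Finite X] [Finite Y] {σ : Equiv.Perm X} {C : Set X} (hC : Cyc G.Adj C σ)
    (h3 : ∀ x ∈ C, σ (σ x) ≠ x) (hTH : T ≤ H) {M : Y → Y → Prop}
    (hMs : ∀ s s', M s s' → M s' s) (hMT : ∀ s s', M s s' → T.Adj s s')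
    (hMu : ∀ s s' s'', M s s' → M s s'' → s' = s'') {f : Y → X} (hf : ∀ s, f s ∈ C)
    (hfM : ∀ s s', M s s' → f s = f s') {S : Set Y} {τ : Equiv.Perm (X × Y)}
    {U : Y → Set X} (h : St G H T σ C S τ U) {y : Y} (hy : y ∈ S) {p : X} (hU : U y ⊆ {p})
    (hM : ∀ s ∈ S, ∀ s', M s s' → (s' ∈ S ∧ E τ (f s, s) (f s, s')) ∨ (s = y ∧ s' ∉ S)) :
    ∃ S', S ⊆ S' ∧ Settled G H T σ C M f S' := by
  by_cases hex : ∃ y', M y y' ∧ y' ∉ S
  · obtain ⟨y', hM', hy'⟩ := hex
    have hfy := hf y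
    have hinv : σ⁻¹ (f y) ∈ C := (hC.inv (fun _ _ h => h.symm)).mem hfy
    have hσinv : σ (σ⁻¹ (f y)) = f y := by simp
    have hne : σ⁻¹ (f y) ≠ f y := by
      intro h4
      have := hC.adj _ hinv
      rw [hσinv] at this
      exact G.ne_of_adj this h4
    obtain ⟨q, hq, hqU, hqf⟩ : ∃ q ∈ C, q ∉ U y ∧ (q = f y ∨ σ q = f y) := by
      by_cases hfp : f y = p
      · refine ⟨σ⁻¹ (f y), hinv, ?_, Or.inr hσinv⟩
        intro h4
        have h5 : σ⁻¹ (f y) = p := hU h4
        exact hne (h5.trans hfp.symm)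
      · exact ⟨f y, hfy, fun h4 => hfp (hU h4), Or.inl rfl⟩
    obtain ⟨τ', U', hSt, _, n1, n2, hold⟩ := h.step hC h3 hTH hy hy' (hMT _ _ hM') hq hqU
    have hnew : E τ' (f y, y) (f y, y') := by
      rcases hqf with h4 | h4
      · rw [← h4]; exact n1
      · rw [← h4]; exact n2
    refine ⟨S ∪ {y'}, Set.subset_union_left, τ', U', hSt, ?_⟩
    rintro s (hs | hs) s' hss'
    · by_cases hsy : s = y
      · subst hsy
        have : s' = y' := hMu _ _ _ hss' hM'
        subst this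
        exact ⟨Or.inr rfl, hnew⟩
      · rcases hM s hs s' hss' with ⟨h4, h5⟩ | h4
        · exact ⟨Or.inl h4, hold s hs s' h4 (T.ne_of_adj (hMT _ _ hss')) _ (hf s) h5⟩
        · exact absurd h4.1 hsy
    · rw [Set.mem_singleton_iff] at hs
      subst hs
      have h4 : s' = y := hMu _ _ _ hss' (hMs _ _ hM')
      subst h4
      refine ⟨Or.inl hy, ?_⟩
      rw [hfM _ _ hss']
      exact hnew.symm
  · refine ⟨S, Set.Subset.rfl, τ, U, h, ?_⟩
    intro s hs s' hss'
    rcases hM s hs s' hss' with h4 | h4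
    · exact h4
    · obtain ⟨rfl, h5⟩ := h4
      exact absurd ⟨s', hss', h5⟩ hex

/-- **The fibre theorem.** The product of the cycle `C` with `T` has a Hamilton cycle containing
the edge over every given matching edge of `T` at a prescribed point of `C`. -/
theorem fibre [Finite X] [Finite Y] {σ : Equiv.Perm X} {C : Set X} (hC : Cyc G.Adj C σ)
    (h3 : ∀ x ∈ C, σ (σ x) ≠ x) (hTH : T ≤ H) (hT : T.Connected)
    (hdeg : ∀ v, (T.neighborSet v).ncard ≤ 3) {M : Y → Y → Prop}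
    (hMs : ∀ s s', M s s' → M s' s) (hMT : ∀ s s', M s s' → T.Adj s s')
    (hMu : ∀ s s' s'', M s s' → M s s'' → s' = s'') {f : Y → X} (hf : ∀ s, f s ∈ C)
    (hfM : ∀ s s', M s s' → f s = f s') :
    ∃ τ : Equiv.Perm (X × Y), Cyc (G □ H).Adj (C ×ˢ Set.univ) τ ∧
      ∀ s s', M s s' → E τ (f s, s) (f s, s') := by
  classical
  obtain ⟨y₀⟩ := hT.nonempty
  -- three different points of `C`
  have hC3 : ∀ U : Set X, U.ncard ≤ 2 → ∃ p ∈ C, p ∉ U := by
    intro U hU
    by_contra hcon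
    push Not at hcon
    have hx := hf y₀
    set x := f y₀
    have h4 := hC.mem hx
    have h5 := hC.mem h4
    have n1 : x ≠ σ x := G.ne_of_adj (hC.adj x hx)
    have n2 : σ x ≠ σ (σ x) := G.ne_of_adj (hC.adj _ h4)
    have n3 : σ (σ x) ≠ x := h3 x hx
    have h6 : ({x, σ x, σ (σ x)} : Set X) ⊆ U := by
      rintro z (rfl | rfl | rfl)
      · exact hcon _ hx
      · exact hcon _ h4
      · exact hcon _ h5
    have h7 := Set.ncard_le_ncard h6 (Set.toFinite _)
    have h8 : ({x, σ x, σ (σ x)} : Set X).ncard = 3 :=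
      Set.ncard_eq_three.mpr ⟨x, σ x, σ (σ x), n1, n3.symm, n2, rfl⟩
    omega
  -- the start
  have hstart : ∃ S, y₀ ∈ S ∧ Settled G H T σ C M f S := by
    obtain ⟨S', hS', h4⟩ := settle hC h3 hTH hMs hMT hMu hf hfM (St.start (H := H) (T := T) hC y₀)
      (y := y₀) rfl (p := f y₀) (Set.empty_subset _) (by
        rintro s hs s' hss'
        right
        rw [Set.mem_singleton_iff] at hs
        refine ⟨hs, ?_⟩
        rw [Set.mem_singleton_iff]
        rintro rfl
        exact T.ne_of_adj (hMT _ _ hss') hs)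
    exact ⟨S', hS' rfl, h4⟩
  -- the step
  have hstep : ∀ S, y₀ ∈ S → Settled G H T σ C M f S → Sᶜ.Nonempty →
      ∃ S', S ⊆ S' ∧ S'ᶜ.ncard < Sᶜ.ncard ∧ Settled G H T σ C M f S' := by
    intro S hy₀ hS hne
    obtain ⟨z, hz⟩ := hne
    obtain ⟨τ, U, hSt, hset⟩ := hS
    -- a crossing edge of `T`
    obtain ⟨y, y', hy, hy', hTy⟩ : ∃ y y', y ∈ S ∧ y' ∉ S ∧ T.Adj y y' := by
      by_contra hcon
      push Not at hcon
      have hr : Relation.ReflTransGen T.Adj y₀ z := by
        rw [← SimpleGraph.reachable_iff_reflTransGen]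
        exact hT.preconnected y₀ z
      have : ∀ w, Relation.ReflTransGen T.Adj y₀ w → w ∈ S := by
        intro w hw
        induction hw with
        | refl => exact hy₀
        | tail hab hbc ih =>
          by_contra hn
          exact hcon _ _ ih hn hbc
      exact hz (this z hr)
    have hcard : (U y).ncard ≤ 2 := by
      have h4 := hSt.card y hy
      have h5 : insert y' {s' | s' ∈ S ∧ T.Adj y s'} ⊆ T.neighborSet y := by
        rintro w (rfl | ⟨_, hw⟩)
        · exact hTy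
        · exact hw
      have h6 := Set.ncard_le_ncard h5 (Set.toFinite _)
      rw [Set.ncard_insert_of_notMem (fun h => hy' h.1) (Set.toFinite _)] at h6
      have h7 := hdeg y
      omega
    obtain ⟨p, hp, hpU⟩ := hC3 (U y) hcard
    obtain ⟨τ', U', hSt', hU', _, _, hold⟩ := hSt.step hC h3 hTH hy hy' hTy hp hpU
    obtain ⟨S', hS', h4⟩ := settle hC h3 hTH hMs hMT hMu hf hfM hSt' (y := y') (Or.inr rfl)
      (p := p) hU'.le (by
        rintro s (hs | hs) s' hss'
        · left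
          obtain ⟨h4, h5⟩ := hset s hs s' hss'
          exact ⟨Or.inl h4, hold s hs s' h4 (T.ne_of_adj (hMT _ _ hss')) _ (hf s) h5⟩
        · right
          rw [Set.mem_singleton_iff] at hs
          subst hs
          refine ⟨rfl, ?_⟩
          rintro (h4 | h4)
          · exact hy' (hset s' h4 s (hMs _ _ hss')).1
          · rw [Set.mem_singleton_iff] at h4
            exact T.ne_of_adj (hMT _ _ hss') h4.symm)
    refine ⟨S', Set.subset_union_left.trans hS', ?_, h4⟩
    refine Set.ncard_lt_ncard ⟨?_, ?_⟩ (Set.toFinite _)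
    · exact Set.compl_subset_compl.mpr (Set.subset_union_left.trans hS')
    · intro h5
      exact (h5 hy') (hS' (Or.inr rfl))
  -- the induction
  have key : ∀ n : ℕ, ∀ S, y₀ ∈ S → Settled G H T σ C M f S → Sᶜ.ncard ≤ n →
      Settled G H T σ C M f Set.univ := by
    intro n
    induction n with
    | zero =>
      intro S _ hS hn
      have h4 : Sᶜ = ∅ := by
        rw [← Set.ncard_eq_zero (Set.toFinite _)]
        omega
      rw [Set.compl_empty_iff] at h4
      rw [← h4]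
      exact hS
    | succ n ih =>
      intro S hy₀ hS hn
      by_cases hne : Sᶜ.Nonempty
      · obtain ⟨S', h4, h5, h6⟩ := hstep S hy₀ hS hne
        exact ih S' (h4 hy₀) h6 (by omega)
      · rw [Set.not_nonempty_iff_eq_empty, Set.compl_empty_iff] at hne
        rw [← hne]
        exact hS
  obtain ⟨S, hy, hS⟩ := hstart
  obtain ⟨τ, U, hSt, hset⟩ := key _ S hy hS le_rfl
  exact ⟨τ, hSt.cyc, fun s s' hss' => (hset s (Set.mem_univ _) s' hss').2⟩

end PolyProd
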