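import Pool.Agent.PolyProd.Defs

/-!
# A large matching in a connected graph of maximum degree three
-/

namespace PolyProd

variable {Y : Type*} {T : SimpleGraph Y}

theorem exists_cross (hT : T.Connected) {S : Set Y} {y₀ z : Y} (hy : y₀ ∈ S) (hz : z ∉ S) :
    ∃ y y', y ∈ S ∧ y' ∉ S ∧ T.Adj y y' := by
  by_contra hcon
  push Not at hcon
  have hr : Relation.ReflTransGen T.Adj y₀ z := by
    rw [← SimpleGraph.reachable_iff_reflTransGen]
    exact hT.preconnected y₀ z
  have : ∀ w, Relation.ReflTransGen T.Adj y₀ w → w ∈ S := by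
    intro w hw
    induction hw with
    | refl => exact hy
    | tail hab hbc ih =>
      by_contra hn
      exact hcon _ _ ih hn hbc
  exact hz (this z hr)

/-- A connected graph of maximum degree at most three has a matching with at least a third of
the number of edges of a spanning tree. -/
theorem exists_matching [Finite Y] (hT : T.Connected)
    (hdeg : ∀ v, (T.neighborSet v).ncard ≤ 3) :
    ∃ 𝓜 : Finset (Sym2 Y), (∀ e ∈ 𝓜, e ∈ T.edgeSet) ∧
      (∀ e ∈ 𝓜, ∀ e' ∈ 𝓜, ∀ y, y ∈ e → y ∈ e' → e = e') ∧ Nat.card Y ≤ 3 * 𝓜.card + 1 := by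
  classical
  obtain ⟨y₀⟩ := hT.nonempty
  have : Nonempty Y := ⟨y₀⟩
  have hcardpos : 1 ≤ Nat.card Y := Nat.card_pos
  have key : ∀ k : ℕ, 1 ≤ k → k ≤ Nat.card Y →
      ∃ (S : Set Y) (𝓕 : Finset (Sym2 Y)) (c : Sym2 Y → Fin 3), y₀ ∈ S ∧ S.ncard = k ∧
        𝓕.card + 1 = k ∧ (∀ e ∈ 𝓕, e ∈ T.edgeSet ∧ ∀ y ∈ e, y ∈ S) ∧
        (∀ e ∈ 𝓕, ∀ e' ∈ 𝓕, ∀ y, y ∈ e → y ∈ e' → c e = c e' → e = e') := by
    intro k hk
    induction k, hk using Nat.le_induction with
    | base =>
      intro _
      exact ⟨{y₀}, ∅, fun _ => 0, rfl, Set.ncard_singleton _, rfl, by simp, by simp⟩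
    | succ k hk ih =>
      intro hk1
      obtain ⟨S, 𝓕, c, hy₀, hcard, hF, hE, hc⟩ := ih (by omega)
      have hout : ∃ z, z ∉ S := by
        by_contra hcon
        push Not at hcon
        have : S = Set.univ := Set.eq_univ_of_forall hcon
        rw [this, Set.ncard_univ] at hcard
        omega
      obtain ⟨z, hz⟩ := hout
      obtain ⟨y, y', hy, hy', hTy⟩ := exists_cross hT hy₀ hz
      -- the edges of `𝓕` at `y`
      set W : Finset (Sym2 Y) := 𝓕.filter (fun e => y ∈ e) with hW
      have hWcard : W.card ≤ 2 := by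
        have h1 : (W : Set (Sym2 Y)) ⊆ (fun w => s(y, w)) '' {w | w ∈ S ∧ T.Adj y w} := by
          intro e he
          rw [hW, Finset.mem_coe, Finset.mem_filter] at he
          obtain ⟨he1, he2⟩ := he
          obtain ⟨w, rfl⟩ := he2
          obtain ⟨h2, h4⟩ := hE _ he1
          exact ⟨w, ⟨h4 w (Sym2.mem_mk_right _ _), h2⟩, rfl⟩
        have h2 := Set.ncard_le_ncard h1 (Set.toFinite _)
        rw [Set.ncard_coe_finset] at h2
        have h4 := Set.ncard_image_le (f := fun w => s(y, w)) (s := {w | w ∈ S ∧ T.Adj y w})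
          (Set.toFinite _)
        have h5 : insert y' {w | w ∈ S ∧ T.Adj y w} ⊆ T.neighborSet y := by
          rintro w (rfl | ⟨_, hw⟩)
          · exact hTy
          · exact hw
        have h6 := Set.ncard_le_ncard h5 (Set.toFinite _)
        rw [Set.ncard_insert_of_notMem (fun h => hy' h.1) (Set.toFinite _)] at h6
        have h7 := hdeg y
        omega
      obtain ⟨κ, hκ⟩ : ∃ κ : Fin 3, κ ∉ W.image c := by
        by_contra hcon
        push Not at hcon
        have h1 : (Finset.univ : Finset (Fin 3)) ⊆ W.image c := fun κ _ => hcon κ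
        have h2 := Finset.card_le_card h1
        have h4 : (W.image c).card ≤ W.card := Finset.card_image_le
        rw [Finset.card_univ, Fintype.card_fin] at h2
        omega
      have hnew : s(y, y') ∉ 𝓕 := fun h => hy' ((hE _ h).2 y' (Sym2.mem_mk_right _ _))
      refine ⟨S ∪ {y'}, insert s(y, y') 𝓕, fun e => if e = s(y, y') then κ else c e,
        Or.inl hy₀, ?_, ?_, ?_, ?_⟩
      · rw [Set.union_singleton, Set.ncard_insert_of_notMem hy' (Set.toFinite _), hcard]
      · rw [Finset.card_insert_of_notMem hnew, hF]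
      · intro e he
        rw [Finset.mem_insert] at he
        rcases he with rfl | he
        · refine ⟨hTy, ?_⟩
          intro w hw
          rw [Sym2.mem_iff] at hw
          rcases hw with rfl | rfl
          · exact Or.inl hy
          · exact Or.inr rfl
        · exact ⟨(hE e he).1, fun w hw => Or.inl ((hE e he).2 w hw)⟩
      · have aux : ∀ e ∈ 𝓕, ∀ w, w ∈ e → w ∈ s(y, y') → κ ≠ c e := by
          intro e he w hw hw' h
          have hwy : w = y := by
            rw [Sym2.mem_iff] at hw'
            rcases hw' with h1 | h1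
            · exact h1
            · subst h1
              exact absurd ((hE e he).2 w hw) hy'
          subst hwy
          apply hκ
          rw [Finset.mem_image]
          exact ⟨e, Finset.mem_filter.mpr ⟨he, hw⟩, h.symm⟩
        intro e he e' he' w hw hw' hcc
        rw [Finset.mem_insert] at he he'
        rcases he with rfl | he
        · rcases he' with rfl | he'
          · rfl
          · have hne : e' ≠ s(y, y') := fun h => hnew (h ▸ he')
            simp only [if_true, if_neg hne] at hcc
            exact absurd hcc (aux e' he' w hw' hw)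
        · have hne : e ≠ s(y, y') := fun h => hnew (h ▸ he)
          rcases he' with rfl | he'
          · simp only [if_true, if_neg hne] at hcc
            exact absurd hcc.symm (aux e he w hw hw')
          · have hne' : e' ≠ s(y, y') := fun h => hnew (h ▸ he')
            simp only [if_neg hne, if_neg hne'] at hcc
            exact hc e he e' he' w hw hw' hcc
  obtain ⟨S, 𝓕, c, _, _, hF, hE, hc⟩ := key _ hcardpos le_rfl
  have hsum : 𝓕.card = ∑ κ : Fin 3, (𝓕.filter (fun e => c e = κ)).card :=
    Finset.card_eq_sum_card_fiberwise (fun _ _ => Finset.mem_coe.mpr (Finset.mem_univ _))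
  rw [Fin.sum_univ_three] at hsum
  have hmain : ∀ κ : Fin 3, Nat.card Y ≤ 3 * (𝓕.filter (fun e => c e = κ)).card + 1 →
      ∃ 𝓜 : Finset (Sym2 Y), (∀ e ∈ 𝓜, e ∈ T.edgeSet) ∧
      (∀ e ∈ 𝓜, ∀ e' ∈ 𝓜, ∀ y, y ∈ e → y ∈ e' → e = e') ∧ Nat.card Y ≤ 3 * 𝓜.card + 1 := by
    intro κ hκ
    refine ⟨𝓕.filter (fun e => c e = κ), ?_, ?_, hκ⟩
    · intro e he
      exact (hE e (Finset.mem_filter.mp he).1).1
    · intro e he e' he' y hy hy'
      obtain ⟨h1, h2⟩ := Finset.mem_filter.mp he
      obtain ⟨h3, h4⟩ := Finset.mem_filter.mp he'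
      exact hc e h1 e' h3 y hy hy' (h2.trans h4.symm)
  by_cases h0 : Nat.card Y ≤ 3 * (𝓕.filter (fun e => c e = 0)).card + 1
  · exact hmain 0 h0
  · by_cases h1 : Nat.card Y ≤ 3 * (𝓕.filter (fun e => c e = 1)).card + 1
    · exact hmain 1 h1
    · exact hmain 2 (by omega)

end PolyProd
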