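import Pool.Agent.PolyProd.Fibre
import Pool.Agent.PolyProd.Matching
import Mathlib.GroupTheory.Perm.Cycle.Factors
import Mathlib.Combinatorics.SimpleGraph.Metric

/-!
# Gluing the cycles over the orbits of a 2-factor
-/

namespace PolyProd

open FlagHam

open scoped SimpleGraph

variable {X Y : Type*} {G : SimpleGraph X} {H T : SimpleGraph Y}

/-- The orbits of a permutation. -/
abbrev Orb (γ : Equiv.Perm X) := Quotient (Equiv.Perm.SameCycle.setoid γ)

/-- The orbit of a point. -/
def orb (γ : Equiv.Perm X) (x : X) : Orb γ := Quotient.mk (Equiv.Perm.SameCycle.setoid γ) x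

theorem orb_eq {γ : Equiv.Perm X} {x y : X} : orb γ x = orb γ y ↔ γ.SameCycle x y :=
  Quotient.eq (r := Equiv.Perm.SameCycle.setoid γ)

theorem orb_out {γ : Equiv.Perm X} (q : Orb γ) : orb γ (Quotient.out q) = q := Quotient.out_eq q

open Classical in
theorem orb_cyc [Finite X] {γ : Equiv.Perm X} (hγ : ∀ x, G.Adj x (γ x)) (q : Orb γ) :
    Cyc G.Adj {x | orb γ x = q} (γ.cycleOf (Quotient.out q)) := by
  have h1 : ∀ x, orb γ x = q → γ.SameCycle (Quotient.out q) x := by
    intro x hx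
    rw [← orb_eq, orb_out, hx]
  have h2 : ∀ x, orb γ x = q → γ.cycleOf (Quotient.out q) x = γ x := fun x hx =>
    (h1 x hx).cycleOf_apply
  have h3 : ∀ x, orb γ (γ x) = orb γ x := by
    intro x
    rw [orb_eq]
    exact Equiv.Perm.sameCycle_apply_left.mpr (Equiv.Perm.SameCycle.refl _ _)
  refine ⟨?_, ?_, ?_⟩
  · intro x hx
    apply Equiv.Perm.cycleOf_apply_of_not_sameCycle
    intro h
    apply hx
    change orb γ x = q
    rw [← orb_out q, orb_eq]
    exact h.symm
  · intro x hx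
    rw [h2 x hx]
    exact hγ x
  · intro x hx y hy
    have hxy : γ.SameCycle x y := by
      rw [← orb_eq]
      exact Eq.trans hx (Eq.symm hy)
    obtain ⟨i, _, _, hi⟩ := hxy.exists_pow_eq''
    refine ⟨i, ?_⟩
    rw [← hi]
    clear hi
    have : ∀ k : ℕ, (⇑(γ.cycleOf (Quotient.out q)))^[k] x = (γ ^ k) x ∧
        orb γ ((γ ^ k) x) = q := by
      intro k
      induction k with
      | zero => exact ⟨rfl, hx⟩
      | succ k ih =>
        rw [Function.iterate_succ_apply', ih.1, h2 _ ih.2, pow_succ', Equiv.Perm.mul_apply]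
        exact ⟨rfl, by rw [h3]; exact ih.2⟩
    exact (this i).1

open Classical in
theorem orb_three [Finite X] {γ : Equiv.Perm X} (hγ : ∀ x, γ (γ x) ≠ x) (q : Orb γ) :
    ∀ x ∈ {x | orb γ x = q}, γ.cycleOf (Quotient.out q) (γ.cycleOf (Quotient.out q) x) ≠ x := by
  intro x hx
  have h1 : ∀ x, orb γ x = q → γ.SameCycle (Quotient.out q) x := by
    intro x hx
    rw [← orb_eq, orb_out, hx]
  have h2 : ∀ x, orb γ x = q → γ.cycleOf (Quotient.out q) x = γ x := fun x hx =>
    (h1 x hx).cycleOf_apply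
  have h3 : ∀ x, orb γ (γ x) = orb γ x := by
    intro x
    rw [orb_eq]
    exact Equiv.Perm.sameCycle_apply_left.mpr (Equiv.Perm.SameCycle.refl _ _)
  rw [h2 x hx, h2 (γ x) (by rw [h3]; exact hx)]
  exact hγ x

/-- At least three points in every orbit. -/
theorem card_orb [Finite X] {γ : Equiv.Perm X} (hγ : ∀ x, G.Adj x (γ x) ∧ γ (γ x) ≠ x) :
    3 * Nat.card (Orb γ) ≤ Nat.card X := by
  classical
  have := Fintype.ofFinite X
  have := Fintype.ofFinite (Orb γ)
  rw [Nat.card_eq_fintype_card, Nat.card_eq_fintype_card]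
  have h1 : (Finset.univ : Finset X).card =
      ∑ q : Orb γ, (Finset.univ.filter (fun x => orb γ x = q)).card :=
    Finset.card_eq_sum_card_fiberwise (fun _ _ => Finset.mem_coe.mpr (Finset.mem_univ _))
  rw [Finset.card_univ] at h1
  rw [h1]
  have h2 : ∀ q ∈ (Finset.univ : Finset (Orb γ)),
      3 ≤ (Finset.univ.filter (fun x => orb γ x = q)).card := by
    intro q _
    set x := Quotient.out q with hx
    have hxq : orb γ x = q := orb_out q
    have h3 : ∀ x, orb γ (γ x) = orb γ x := by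
      intro x
      rw [orb_eq]
      exact Equiv.Perm.sameCycle_apply_left.mpr (Equiv.Perm.SameCycle.refl _ _)
    have n1 : x ≠ γ x := G.ne_of_adj (hγ x).1
    have n2 : γ x ≠ γ (γ x) := G.ne_of_adj (hγ _).1
    have n3 : γ (γ x) ≠ x := (hγ x).2
    have h4 : ({x, γ x, γ (γ x)} : Finset X) ⊆ Finset.univ.filter (fun x => orb γ x = q) := by
      intro z hz
      rw [Finset.mem_filter]
      refine ⟨Finset.mem_univ _, ?_⟩
      simp only [Finset.mem_insert, Finset.mem_singleton] at hz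
      rcases hz with rfl | rfl | rfl
      · exact hxq
      · rw [h3]; exact hxq
      · rw [h3, h3]; exact hxq
    have h5 := Finset.card_le_card h4
    have h6 : ({x, γ x, γ (γ x)} : Finset X).card = 3 :=
      Finset.card_eq_three.mpr ⟨x, γ x, γ (γ x), n1, n3.symm, n2, rfl⟩
    omega
  have h7 := Finset.card_nsmul_le_sum _ _ _ h2
  rw [Finset.card_univ, smul_eq_mul] at h7
  omega

/-- The parent data. -/
theorem exists_parent (hG : G.Connected) (γ : Equiv.Perm X) :
    ∃ (q₀ : Orb γ) (ρ : Orb γ → ℕ) (xx zz : Orb γ → X), ∀ q, q ≠ q₀ →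
      orb γ (zz q) = q ∧ G.Adj (xx q) (zz q) ∧ ρ (orb γ (xx q)) < ρ q := by
  classical
  obtain ⟨x₀⟩ := hG.nonempty
  let ρ : Orb γ → ℕ := fun q => sInf {n | ∃ x, orb γ x = q ∧ G.dist x x₀ = n}
  have hρ : ∀ x, ρ (orb γ x) ≤ G.dist x x₀ := fun x => Nat.sInf_le ⟨x, rfl, rfl⟩
  have hex : ∀ q, ∃ x z, q ≠ orb γ x₀ → orb γ z = q ∧ G.Adj x z ∧ ρ (orb γ x) < ρ q := by
    intro q
    by_cases hq : q = orb γ x₀
    · exact ⟨x₀, x₀, fun h => absurd hq h⟩
    · have hne : {n | ∃ x, orb γ x = q ∧ G.dist x x₀ = n}.Nonempty :=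
        ⟨_, Quotient.out q, orb_out q, rfl⟩
      obtain ⟨z, hz, hzd⟩ := Nat.sInf_mem hne
      obtain ⟨p, hp⟩ := (hG.preconnected z x₀).exists_walk_length_eq_dist
      cases p with
      | nil => exact absurd hz.symm (fun h => hq h)
      | @cons _ x _ hzx p' =>
        refine ⟨x, z, fun _ => ⟨hz, hzx.symm, ?_⟩⟩
        have h1 : ρ q = G.dist z x₀ := hzd.symm
        have h2 : G.dist x x₀ ≤ p'.length := SimpleGraph.dist_le p'
        rw [SimpleGraph.Walk.length_cons] at hp
        have h3 := hρ x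
        omega
  choose xx zz h using hex
  exact ⟨orb γ x₀, ρ, xx, zz, h⟩

end PolyProd
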