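import Pool.Agent.FlagHam.Cyc

/-!
# Merging two cycles, with the new edges
-/

namespace FlagHam

variable {α : Type*} {adj : α → α → Prop} {S₁ S₂ : Set α} {σ₁ σ₂ : Equiv.Perm α}

open Equiv in
/-- Oriented merging, with the new steps. -/
theorem Cyc.merge₁ [DecidableEq α] (h1 : Cyc adj S₁ σ₁) (h2 : Cyc adj S₂ σ₂)
    (hd : Disjoint S₁ S₂) {a d : α} (ha : a ∈ S₁) (hdS : d ∈ S₂)
    (hac : adj a (σ₂ d)) (hdb : adj d (σ₁ a)) :
    ∃ τ : Perm α, Cyc adj (S₁ ∪ S₂) τ ∧ τ a = σ₂ d ∧ τ d = σ₁ a ∧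
      (∀ x ∈ S₁, x ≠ a → τ x = σ₁ x) ∧ (∀ x ∈ S₂, x ≠ d → τ x = σ₂ x) := by
  have hdis : ∀ x, x ∈ S₁ → x ∈ S₂ → False := fun x h h' => Set.disjoint_left.mp hd h h'
  have had : a ≠ d := fun h => hdis a ha (h ▸ hdS)
  set τ : Perm α := σ₁ * σ₂ * swap a d with hτ
  have t1 : ∀ x ∈ S₁, x ≠ a → τ x = σ₁ x := by
    intro x hx hxa
    have hxd : x ≠ d := fun h => hdis x hx (h ▸ hdS)
    have h3 : σ₂ x = x := h2.fix x (fun h => hdis x hx h)
    simp only [hτ, Perm.mul_apply, swap_apply_of_ne_of_ne hxa hxd, h3]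
  have t2 : ∀ x ∈ S₂, x ≠ d → τ x = σ₂ x := by
    intro x hx hxd
    have hxa : x ≠ a := fun h => hdis x (h ▸ ha) hx
    have h3 : σ₁ (σ₂ x) = σ₂ x := h1.fix _ (fun h => hdis _ h (h2.mem hx))
    simp only [hτ, Perm.mul_apply, swap_apply_of_ne_of_ne hxa hxd, h3]
  have t3 : τ a = σ₂ d := by
    have h3 : σ₁ (σ₂ d) = σ₂ d := h1.fix _ (fun h => hdis _ h (h2.mem hdS))
    simp only [hτ, Perm.mul_apply, swap_apply_left, h3]
  have t4 : τ d = σ₁ a := by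
    have h3 : σ₂ a = a := h2.fix a (fun h => hdis a ha h)
    simp only [hτ, Perm.mul_apply, swap_apply_right, h3]
  refine ⟨τ, ⟨?_, ?_, ?_⟩, t3, t4, t1, t2⟩
  · intro x hx
    have hx1 : x ∉ S₁ := fun h => hx (Or.inl h)
    have hx2 : x ∉ S₂ := fun h => hx (Or.inr h)
    have hxa : x ≠ a := fun h => hx1 (h ▸ ha)
    have hxd : x ≠ d := fun h => hx2 (h ▸ hdS)
    simp only [hτ, Perm.mul_apply, swap_apply_of_ne_of_ne hxa hxd, h2.fix x hx2, h1.fix x hx1]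
  · rintro x (hx | hx)
    · by_cases hxa : x = a
      · subst hxa; rw [t3]; exact hac
      · rw [t1 x hx hxa]; exact h1.adj x hx
    · by_cases hxd : x = d
      · subst hxd; rw [t4]; exact hdb
      · rw [t2 x hx hxd]; exact h2.adj x hx
  · -- transitivity
    have r1 : ∀ x ∈ S₁, Reach τ x a := by
      intro x hx
      refine Reach.of_ne (f := σ₁) (h1.trans x hx a ha) ?_
      intro j hj
      exact t1 _ (h1.iter_mem hx j) hj
    have r2 : ∀ x ∈ S₂, Reach τ x d := by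
      intro x hx
      refine Reach.of_ne (f := σ₂) (h2.trans x hx d hdS) ?_
      intro j hj
      exact t2 _ (h2.iter_mem hx j) hj
    have r3 : ∀ y ∈ S₂, Reach τ a y := by
      intro y hy
      have h3 : Reach τ (σ₂ d) y := by
        refine reach_after (f := σ₂) (h2.trans _ (h2.mem hdS) y hy) ?_
        intro j hj
        exact t2 _ (h2.iter_mem (h2.mem hdS) j) hj
      exact Reach.trans (⟨1, t3⟩ : Reach τ a (σ₂ d)) h3
    have r4 : ∀ y ∈ S₁, Reach τ d y := by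
      intro y hy
      have h3 : Reach τ (σ₁ a) y := by
        refine reach_after (f := σ₁) (h1.trans _ (h1.mem ha) y hy) ?_
        intro j hj
        exact t1 _ (h1.iter_mem (h1.mem ha) j) hj
      exact Reach.trans (⟨1, t4⟩ : Reach τ d (σ₁ a)) h3
    rintro x (hx | hx) y (hy | hy)
    · exact (r1 x hx).trans ((r3 d hdS).trans (r4 y hy))
    · exact (r1 x hx).trans (r3 y hy)
    · exact (r2 x hx).trans (r4 y hy)
    · exact (r2 x hx).trans ((r4 a ha).trans (r3 y hy))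

/-- Merging at a pair of parallel edges `a b` and `c d`; the new edges are `a c` and `b d`. -/
theorem Cyc.merge₂ (h1 : Cyc adj S₁ σ₁) (h2 : Cyc adj S₂ σ₂)
    (hs : ∀ x y, adj x y → adj y x)
    (hd : Disjoint S₁ S₂) {a b c d : α} (ha : a ∈ S₁) (hb : b ∈ S₁) (hc : c ∈ S₂) (hdS : d ∈ S₂)
    (hab : E σ₁ a b) (hcd : E σ₂ c d) (hac : adj a c) (hbd : adj b d) :
    ∃ τ : Equiv.Perm α, Cyc adj (S₁ ∪ S₂) τ ∧ E τ a c ∧ E τ b d ∧
      (∀ x ∈ S₁, ∀ y ∈ S₁, E σ₁ x y → ¬ (x = a ∧ y = b) → ¬ (x = b ∧ y = a) → E τ x y) ∧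
      (∀ x ∈ S₂, ∀ y ∈ S₂, E σ₂ x y → ¬ (x = c ∧ y = d) → ¬ (x = d ∧ y = c) → E τ x y) := by
  classical
  have key : ∀ (ρ₁ ρ₂ : Equiv.Perm α) (a b c d : α), Cyc adj S₁ ρ₁ → Cyc adj S₂ ρ₂ →
      a ∈ S₁ → d ∈ S₂ → ρ₁ a = b → ρ₂ d = c → adj a c → adj b d →
      ∃ τ : Equiv.Perm α, Cyc adj (S₁ ∪ S₂) τ ∧ E τ a c ∧ E τ b d ∧
      (∀ x ∈ S₁, ∀ y ∈ S₁, E ρ₁ x y → ¬ (x = a ∧ y = b) → ¬ (x = b ∧ y = a) → E τ x y) ∧
      (∀ x ∈ S₂, ∀ y ∈ S₂, E ρ₂ x y → ¬ (x = c ∧ y = d) → ¬ (x = d ∧ y = c) → E τ x y) := by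
    intro ρ₁ ρ₂ a b c d h1 h2 ha hdS hab hdc hac hbd
    obtain ⟨τ, hτ, n1, n2, t1, t2⟩ := Cyc.merge₁ h1 h2 hd ha hdS (by rw [hdc]; exact hac)
      (by rw [hab]; exact hs _ _ hbd)
    refine ⟨τ, hτ, Or.inl (by rw [n1, hdc]), Or.inr (by rw [n2, hab]), ?_, ?_⟩
    · intro x hx y hy hxy n1 n2
      rcases hxy with h | h
      · left
        rw [t1 x hx, h]
        rintro rfl
        exact n1 ⟨rfl, by rw [← h, hab]⟩
      · right
        rw [t1 y hy, h]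
        rintro rfl
        exact n2 ⟨by rw [← h, hab], rfl⟩
    · intro x hx y hy hxy n1 n2
      rcases hxy with h | h
      · left
        rw [t2 x hx, h]
        rintro rfl
        exact n2 ⟨rfl, by rw [← h, hdc]⟩
      · right
        rw [t2 y hy, h]
        rintro rfl
        exact n1 ⟨by rw [← h, hdc], rfl⟩
  rcases hab with hab | hab
  · rcases hcd with hcd | hcd
    · have hdc : σ₂⁻¹ d = c := by rw [Equiv.Perm.inv_eq_iff_eq, hcd]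
      obtain ⟨τ, hτ, n1, n2, t1, t2⟩ := key σ₁ σ₂⁻¹ a b c d h1 (h2.inv hs) ha hdS hab hdc hac hbd
      exact ⟨τ, hτ, n1, n2, t1, fun x hx y hy hxy => t2 x hx y hy (E_inv.mpr hxy)⟩
    · exact key σ₁ σ₂ a b c d h1 h2 ha hdS hab hcd hac hbd
  · rcases hcd with hcd | hcd
    · obtain ⟨τ, hτ, n1, n2, t1, t2⟩ := key σ₁ σ₂ b a d c h1 h2 hb hc hab hcd hbd hac
      exact ⟨τ, hτ, n2, n1, fun x hx y hy hxy n1 n2 => t1 x hx y hy hxy n2 n1,
        fun x hx y hy hxy n1 n2 => t2 x hx y hy hxy n2 n1⟩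
    · have hdc : σ₂⁻¹ c = d := by rw [Equiv.Perm.inv_eq_iff_eq, hcd]
      obtain ⟨τ, hτ, n1, n2, t1, t2⟩ := key σ₁ σ₂⁻¹ b a d c h1 (h2.inv hs) hb hc hab hdc hbd hac
      exact ⟨τ, hτ, n2, n1, fun x hx y hy hxy n1 n2 => t1 x hx y hy hxy n2 n1,
        fun x hx y hy hxy n1 n2 => t2 x hx y hy (E_inv.mpr hxy) n2 n1⟩

end FlagHam
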