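import Pool.Agent.PolyProd.Defs

/-!
# A connected spanning subgraph of maximum degree at most three

Win's theorem for regular graphs with large edge cuts, in the form of a closure argument.
-/

namespace PolyProd

namespace Win

open SimpleGraph

variable {V : Type*}

/-- The graph `H` with all edges that meet `X` deleted. -/
def del (H : SimpleGraph V) (X : Set V) : SimpleGraph V where
  Adj x y := H.Adj x y ∧ x ∉ X ∧ y ∉ X
  symm := ⟨fun _ _ h => ⟨h.1.symm, h.2.2, h.2.1⟩⟩
  loopless := ⟨fun _ h => H.irrefl h.1⟩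

lemma del_adj {H : SimpleGraph V} {X : Set V} {x y : V} :
    (del H X).Adj x y ↔ H.Adj x y ∧ x ∉ X ∧ y ∉ X := Iff.rfl

lemma del_anti (H : SimpleGraph V) {X Y : Set V} (hYX : Y ⊆ X) : del H X ≤ del H Y :=
  fun _ _ h => ⟨h.1, fun ha => h.2.1 (hYX ha), fun hb => h.2.2 (hYX hb)⟩

lemma reach_of_adj {A B : SimpleGraph V} (h : ∀ x y, A.Adj x y → B.Reachable x y) {x y : V}
    (hxy : A.Reachable x y) : B.Reachable x y := by
  obtain ⟨p⟩ := hxy
  induction p with
  | nil => exact Reachable.refl _
  | cons ha _ ih => exact (h _ _ ha).trans ih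

/-- `H` looks like `T` seen from `X`: same edges at `X`, same components outside `X`, and
degrees at most `k` outside `X`. -/
structure Sim (G T : SimpleGraph V) (k : ℕ) (X : Set V) (H : SimpleGraph V) : Prop where
  le : H ≤ G
  adj : ∀ x ∈ X, ∀ y, H.Adj x y ↔ T.Adj x y
  reach : ∀ x y, (del H X).Reachable x y ↔ (del T X).Reachable x y
  deg : ∀ v, v ∉ X → (H.neighborSet v).ncard ≤ k

lemma Sim.mono {G T H : SimpleGraph V} {k : ℕ} {X Y : Set V} (h : Sim G T k X H) (hYX : Y ⊆ X)
    (hT : ∀ v, v ∉ Y → (T.neighborSet v).ncard ≤ k) : Sim G T k Y H := by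
  have key : ∀ x y, H.Adj x y → x ∉ Y → y ∉ Y → (del T Y).Reachable x y := by
    intro x y hxy hx hy
    by_cases hx' : x ∈ X
    · exact Adj.reachable (show (del T Y).Adj x y from ⟨(h.adj x hx' y).1 hxy, hx, hy⟩)
    by_cases hy' : y ∈ X
    · exact Adj.reachable
        (show (del T Y).Adj x y from ⟨((h.adj y hy' x).1 hxy.symm).symm, hx, hy⟩)
    have h1 : (del H X).Reachable x y := Adj.reachable ⟨hxy, hx', hy'⟩
    exact ((h.reach x y).1 h1).mono (del_anti T hYX)
  have key' : ∀ x y, T.Adj x y → x ∉ Y → y ∉ Y → (del H Y).Reachable x y := by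
    intro x y hxy hx hy
    by_cases hx' : x ∈ X
    · exact Adj.reachable (show (del H Y).Adj x y from ⟨(h.adj x hx' y).2 hxy, hx, hy⟩)
    by_cases hy' : y ∈ X
    · exact Adj.reachable
        (show (del H Y).Adj x y from ⟨((h.adj y hy' x).2 hxy.symm).symm, hx, hy⟩)
    have h1 : (del T X).Reachable x y := Adj.reachable ⟨hxy, hx', hy'⟩
    exact ((h.reach x y).2 h1).mono (del_anti H hYX)
  refine ⟨h.le, fun x hx y => h.adj x (hYX hx) y, fun x y => ⟨?_, ?_⟩, fun v hv => ?_⟩
  · exact reach_of_adj fun a b (hab : (del H Y).Adj a b) => key a b hab.1 hab.2.1 hab.2.2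
  · exact reach_of_adj fun a b (hab : (del T Y).Adj a b) => key' a b hab.1 hab.2.1 hab.2.2
  · by_cases hv' : v ∈ X
    · have : H.neighborSet v = T.neighborSet v := by
        ext y
        exact h.adj v hv' y
      rw [this]
      exact hT v hv
    · exact h.deg v hv'

/-- `A` at the vertices of `M`, `B` elsewhere. -/
def comb (M : Set V) (A B : SimpleGraph V) : SimpleGraph V where
  Adj x y := ((x ∈ M ∨ y ∈ M) ∧ A.Adj x y) ∨ (x ∉ M ∧ y ∉ M ∧ B.Adj x y)
  symm := ⟨fun _ _ h => by
    rcases h with ⟨h1, h2⟩ | ⟨h1, h2, h3⟩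
    · exact Or.inl ⟨h1.symm, h2.symm⟩
    · exact Or.inr ⟨h2, h1, h3.symm⟩⟩
  loopless := ⟨fun _ h => by
    rcases h with ⟨_, h2⟩ | ⟨_, _, h3⟩
    · exact A.irrefl h2
    · exact B.irrefl h3⟩

/-- The component of `u` outside `X`. -/
def comp (T : SimpleGraph V) (X : Set V) (u : V) : Set V := {x | (del T X).Reachable u x}

lemma reach_mem {T : SimpleGraph V} {X : Set V} {x y : V} (h : (del T X).Reachable x y)
    (hx : x ∈ X) : y = x := by
  obtain ⟨p⟩ := h
  cases p with
  | nil => rfl
  | cons ha _ => exact absurd hx ha.2.1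

lemma comp_disj {T : SimpleGraph V} {X : Set V} {u x : V} (hu : u ∉ X) (hx : x ∈ comp T X u) :
    x ∉ X := by
  intro h
  have := reach_mem (Reachable.symm hx) h
  rw [this] at hu
  exact hu h

section combine

variable {G T A B : SimpleGraph V} {k : ℕ} {X : Set V} {u : V}

lemma Sim.adj_comp (hA : Sim G T k X A) {x y : V} (hxy : A.Adj x y) (hx : x ∉ X) (hy : y ∉ X)
    (hm : x ∈ comp T X u) : y ∈ comp T X u := by
  have h1 : (del A X).Reachable x y := Adj.reachable ⟨hxy, hx, hy⟩
  exact Reachable.trans hm ((hA.reach x y).1 h1)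

lemma comb_nbr_mem {x : V} (hm : x ∈ comp T X u) :
    (comb (comp T X u) A B).neighborSet x = A.neighborSet x := by
  ext y
  constructor
  · rintro (⟨_, h⟩ | ⟨h, _, _⟩)
    · exact h
    · exact absurd hm h
  · exact fun h => Or.inl ⟨Or.inl hm, h⟩

lemma comb_nbr_notMem (hA : Sim G T k X A) (hB : Sim G T k X B) (hu : u ∉ X) {x : V}
    (hx : x ∉ X) (hm : x ∉ comp T X u) :
    (comb (comp T X u) A B).neighborSet x = B.neighborSet x := by
  ext y
  constructor
  · rintro (⟨h1 | h1, h⟩ | ⟨_, _, h⟩)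
    · exact absurd h1 hm
    · exact absurd (hA.adj_comp h.symm (comp_disj hu h1) hx h1) hm
    · exact h
  · intro h
    by_cases hy : y ∈ comp T X u
    · exact absurd (hB.adj_comp (Adj.symm h) (comp_disj hu hy) hx hy) hm
    · exact Or.inr ⟨hm, hy, h⟩

lemma comb_sim (hA : Sim G T k X A) (hB : Sim G T k X B) (hu : u ∉ X) :
    Sim G T k X (comb (comp T X u) A B) := by
  refine ⟨?_, ?_, ?_, ?_⟩
  · rintro x y (⟨_, h⟩ | ⟨_, _, h⟩)
    · exact hA.le h
    · exact hB.le h
  · intro x hx y
    have hm : x ∉ comp T X u := fun h => comp_disj hu h hx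
    constructor
    · rintro (⟨_, h⟩ | ⟨_, _, h⟩)
      · exact (hA.adj x hx y).1 h
      · exact (hB.adj x hx y).1 h
    · intro h
      by_cases hy : y ∈ comp T X u
      · exact Or.inl ⟨Or.inr hy, (hA.adj x hx y).2 h⟩
      · exact Or.inr ⟨hm, hy, (hB.adj x hx y).2 h⟩
  · intro x y
    constructor
    · refine reach_of_adj ?_
      rintro a b ⟨⟨_, h⟩ | ⟨_, _, h⟩, ha, hb⟩
      · exact (hA.reach a b).1 (Adj.reachable ⟨h, ha, hb⟩)
      · exact (hB.reach a b).1 (Adj.reachable ⟨h, ha, hb⟩)
    · have k1 : ∀ a b, (del A X).Reachable a b → a ∈ comp T X u →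
          (del (comb (comp T X u) A B) X).Reachable a b := by
        rintro a b ⟨p⟩
        induction p with
        | nil => exact fun _ => Reachable.refl _
        | cons ha _ ih =>
          intro hm
          exact (Adj.reachable (show (del (comb (comp T X u) A B) X).Adj _ _ from
            ⟨Or.inl ⟨Or.inl hm, ha.1⟩, ha.2.1, ha.2.2⟩)).trans
            (ih (hA.adj_comp ha.1 ha.2.1 ha.2.2 hm))
      have k2 : ∀ a b, (del B X).Reachable a b → a ∉ comp T X u →
          (del (comb (comp T X u) A B) X).Reachable a b := by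
        rintro a b ⟨p⟩
        induction p with
        | nil => exact fun _ => Reachable.refl _
        | cons ha _ ih =>
          intro hm
          have hm' := fun hb => hm (hB.adj_comp (Adj.symm ha.1) ha.2.2 ha.2.1 hb)
          exact (Adj.reachable (show (del (comb (comp T X u) A B) X).Adj _ _ from
            ⟨Or.inr ⟨hm, hm', ha.1⟩, ha.2.1, ha.2.2⟩)).trans (ih hm')
      intro h
      by_cases hm : x ∈ comp T X u
      · exact k1 x y ((hA.reach x y).2 h) hm
      · exact k2 x y ((hB.reach x y).2 h) hm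
  · intro v hv
    by_cases hm : v ∈ comp T X u
    · rw [comb_nbr_mem hm]
      exact hA.deg v hv
    · rw [comb_nbr_notMem hA hB hu hv hm]
      exact hB.deg v hv

end combine

/-- The exchange step. -/
lemma swap [Finite V] {G H : SimpleGraph V} {X Y : Set V} (hYX : Y ⊆ X) {u v : V} (hu : u ∉ X)
    (hv : v ∉ X) (hG : G.Adj u v) (hHG : H ≤ G) (hr : (del H Y).Reachable u v)
    (hn : ¬ (del H X).Reachable u v) :
    ∃ (H' : SimpleGraph V) (b : V), b ∈ X ∧ b ∉ Y ∧ H' ≤ G ∧
      (∀ x ∈ Y, ∀ y, H'.Adj x y ↔ H.Adj x y) ∧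
      (∀ x y, (del H' Y).Reachable x y ↔ (del H Y).Reachable x y) ∧
      (∀ x, x ≠ u → x ≠ v → (H'.neighborSet x).ncard ≤ (H.neighborSet x).ncard) ∧
      (H'.neighborSet u).ncard ≤ (H.neighborSet u).ncard + 1 ∧
      (H'.neighborSet v).ncard ≤ (H.neighborSet v).ncard + 1 ∧
      (H'.neighborSet b).ncard + 1 ≤ (H.neighborSet b).ncard := by
  classical
  have huv : u ≠ v := hG.ne
  obtain ⟨p, hp⟩ := hr.exists_isPath
  -- an edge of the path with an end in `X`
  have hab : ∃ a b, s(a, b) ∈ p.edges ∧ b ∈ X := by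
    by_contra hcon
    push Not at hcon
    refine hn ⟨p.transfer _ ?_⟩
    intro e he
    induction e using Sym2.ind with
    | _ x y =>
      have h1 := p.edges_subset_edgeSet he
      rw [mem_edgeSet] at h1 ⊢
      exact ⟨h1.1, hcon y x (by rwa [Sym2.eq_swap]), hcon x y he⟩
  obtain ⟨a, b, hab, hb⟩ := hab
  have hadj : (del H Y).Adj a b := p.adj_of_mem_edges hab
  have haY : a ∉ Y := hadj.2.1
  have hbY : b ∉ Y := hadj.2.2
  have huY : u ∉ Y := fun h => hu (hYX h)
  have hvY : v ∉ Y := fun h => hv (hYX h)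
  have hbu : b ≠ u := fun h => hu (h ▸ hb)
  have hbv : b ≠ v := fun h => hv (h ▸ hb)
  have hnuv : s(v, u) ∉ p.edges := by
    intro h
    have h1 : (del H Y).Adj v u := p.adj_of_mem_edges h
    exact hn (Adj.reachable ⟨h1.1.symm, hu, hv⟩)
  let H' : SimpleGraph V :=
    { Adj := fun x y => (H.Adj x y ∨ s(x, y) = s(u, v)) ∧ s(x, y) ≠ s(a, b)
      symm := ⟨fun x y h => by
        rw [Sym2.eq_swap (a := y) (b := x)]
        exact ⟨h.1.imp (fun h => h.symm) id, h.2⟩⟩
      loopless := ⟨fun x h => by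
        rcases h.1 with h1 | h1
        · exact H.irrefl h1
        · rw [Sym2.eq_iff] at h1
          rcases h1 with ⟨h1, h2⟩ | ⟨h1, h2⟩
          · exact huv (h1.symm.trans h2)
          · exact huv (h2.symm.trans h1)⟩ }
  have hH' : ∀ x y, H'.Adj x y ↔ (H.Adj x y ∨ s(x, y) = s(u, v)) ∧ s(x, y) ≠ s(a, b) :=
    fun _ _ => Iff.rfl
  -- reachability of the ends of the deleted edge
  have hreach : (del H' Y).Reachable a b := by
    let K : SimpleGraph V := del H Y ⊔ edge v u
    have hK : K.Adj v u := by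
      rw [sup_adj, edge_adj]
      exact Or.inr ⟨Or.inl ⟨rfl, rfl⟩, huv.symm⟩
    have hle : del H Y ≤ K := le_sup_left
    have h1 : ∃ (w : V) (q : K.Walk w w), q.IsCycle ∧ s(a, b) ∈ q.edges := by
      refine ⟨v, Walk.cons hK (p.mapLe hle), ?_, ?_⟩
      · rw [Walk.cons_isCycle_iff]
        refine ⟨hp.mapLe hle, ?_⟩
        rwa [Walk.edges_mapLe_eq_edges]
      · rw [Walk.edges_cons, Walk.edges_mapLe_eq_edges]
        exact List.mem_cons_of_mem _ hab
    have h2 := (adj_and_reachable_delete_edges_iff_exists_cycle.2 h1).2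
    refine h2.mono ?_
    intro x y hxy
    rw [deleteEdges_adj] at hxy
    obtain ⟨h3, h4⟩ := hxy
    have h4' : s(x, y) ≠ s(a, b) := h4
    rw [sup_adj, edge_adj] at h3
    rcases h3 with h3 | ⟨⟨rfl, rfl⟩ | ⟨rfl, rfl⟩, _⟩
    · exact ⟨⟨Or.inl h3.1, h4'⟩, h3.2.1, h3.2.2⟩
    · exact ⟨⟨Or.inr Sym2.eq_swap, h4'⟩, hvY, huY⟩
    · exact ⟨⟨Or.inr rfl, h4'⟩, huY, hvY⟩
  refine ⟨H', b, hb, hbY, ?_, ?_, ?_, ?_, ?_, ?_, ?_⟩
  · rintro x y ⟨h | h, _⟩
    · exact hHG h
    · rw [Sym2.eq_iff] at h
      rcases h with ⟨rfl, rfl⟩ | ⟨rfl, rfl⟩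
      · exact hG
      · exact hG.symm
  · intro x hx y
    rw [hH']
    constructor
    · rintro ⟨h | h, _⟩
      · exact h
      · rw [Sym2.eq_iff] at h
        rcases h with ⟨rfl, rfl⟩ | ⟨rfl, rfl⟩
        · exact absurd hx huY
        · exact absurd hx hvY
    · intro h
      refine ⟨Or.inl h, ?_⟩
      rw [Ne, Sym2.eq_iff]
      rintro (⟨rfl, rfl⟩ | ⟨rfl, rfl⟩)
      · exact haY hx
      · exact hbY hx
  · intro x y
    constructor
    · refine reach_of_adj ?_
      rintro c d ⟨⟨h | h, _⟩, hc, hd⟩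
      · exact Adj.reachable ⟨h, hc, hd⟩
      · rw [Sym2.eq_iff] at h
        rcases h with ⟨rfl, rfl⟩ | ⟨rfl, rfl⟩
        · exact hr
        · exact hr.symm
    · refine reach_of_adj ?_
      intro c d hcd
      by_cases h : s(c, d) = s(a, b)
      · rw [Sym2.eq_iff] at h
        rcases h with ⟨rfl, rfl⟩ | ⟨rfl, rfl⟩
        · exact hreach
        · exact hreach.symm
      · exact Adj.reachable ⟨⟨Or.inl hcd.1, h⟩, hcd.2.1, hcd.2.2⟩
  · intro x hxu hxv
    refine Set.ncard_le_ncard ?_ (Set.toFinite _)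
    rintro y ⟨h | h, _⟩
    · exact h
    · rw [Sym2.eq_iff] at h
      rcases h with ⟨rfl, rfl⟩ | ⟨rfl, rfl⟩
      · exact absurd rfl hxu
      · exact absurd rfl hxv
  · refine (Set.ncard_le_ncard (t := insert v (H.neighborSet u)) ?_ (Set.toFinite _)).trans
      (Set.ncard_insert_le _ _)
    rintro y ⟨h | h, _⟩
    · exact Or.inr h
    · rw [Sym2.eq_iff] at h
      rcases h with ⟨_, rfl⟩ | ⟨h1, _⟩
      · exact Or.inl rfl
      · exact absurd h1 huv
  · refine (Set.ncard_le_ncard (t := insert u (H.neighborSet v)) ?_ (Set.toFinite _)).trans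
      (Set.ncard_insert_le _ _)
    rintro y ⟨h | h, _⟩
    · exact Or.inr h
    · rw [Sym2.eq_iff] at h
      rcases h with ⟨h1, _⟩ | ⟨_, rfl⟩
      · exact absurd h1.symm huv
      · exact Or.inl rfl
  · have h1 : (H'.neighborSet b).ncard < (H.neighborSet b).ncard := by
      refine Set.ncard_lt_ncard ?_ (Set.toFinite _)
      rw [Set.ssubset_iff_of_subset]
      · refine ⟨a, hadj.1.symm, ?_⟩
        rintro ⟨_, h⟩
        exact h Sym2.eq_swap
      · rintro y ⟨h | h, _⟩
        · exact h
        · rw [Sym2.eq_iff] at h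
          rcases h with ⟨rfl, rfl⟩ | ⟨rfl, rfl⟩
          · exact absurd rfl hbu
          · exact absurd rfl hbv
    omega

/-! ### The closure -/

/-- The vertices outside `X` whose degree is at least `k` in all graphs which look like `T`
seen from `X`. -/
def Rig (G T : SimpleGraph V) (k : ℕ) (X : Set V) : Set V :=
  {v | v ∉ X ∧ ∀ H, Sim G T k X H → k ≤ (H.neighborSet v).ncard}

/-- The closure sequence. -/
def stage (G T : SimpleGraph V) (k : ℕ) (S : Set V) : ℕ → Set V
  | 0 => S
  | n + 1 => stage G T k S n ∪ Rig G T k (stage G T k S n)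

lemma stage_mono (G T : SimpleGraph V) (k : ℕ) (S : Set V) : Monotone (stage G T k S) :=
  monotone_nat_of_le_succ fun _ => Set.subset_union_left

lemma Sim.refl {G T : SimpleGraph V} {k : ℕ} {X : Set V} (h : T ≤ G)
    (hT : ∀ v, v ∉ X → (T.neighborSet v).ncard ≤ k) : Sim G T k X T :=
  ⟨h, fun _ _ _ => Iff.rfl, fun _ _ => Iff.rfl, hT⟩

lemma Sim.reachable {G T H : SimpleGraph V} {k : ℕ} {X : Set V} (h : Sim G T k X H) {x y : V}
    (hxy : T.Reachable x y) : H.Reachable x y := by
  refine reach_of_adj ?_ hxy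
  intro a b hab
  by_cases ha : a ∈ X
  · exact Adj.reachable ((h.adj a ha b).2 hab)
  by_cases hb : b ∈ X
  · exact (Adj.reachable ((h.adj b hb a).2 hab.symm)).symm
  have h1 : (del T X).Reachable a b := Adj.reachable ⟨hab, ha, hb⟩
  exact ((h.reach a b).2 h1).mono fun x y (hxy : (del H X).Adj x y) => hxy.1

lemma del_empty (H : SimpleGraph V) : del H ∅ = H := by
  ext x y
  simp [del_adj]

lemma closed [Finite V] {G T : SimpleGraph V} {k : ℕ} (hc : T.Connected)
    (hdeg : ∀ v, (T.neighborSet v).ncard ≤ k + 1)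
    (hmin : ∀ H : SimpleGraph V, H ≤ G → H.Connected →
      (∀ v, (H.neighborSet v).ncard ≤ k + 1) →
      {v | (T.neighborSet v).ncard = k + 1}.ncard ≤ {v | (H.neighborSet v).ncard = k + 1}.ncard)
    (i : ℕ) {u v : V} (hu : u ∉ stage G T k {v | (T.neighborSet v).ncard = k + 1} i)
    (hv : v ∉ stage G T k {v | (T.neighborSet v).ncard = k + 1} i) (hG : G.Adj u v)
    (hn : ¬ (del T (stage G T k {v | (T.neighborSet v).ncard = k + 1} i)).Reachable u v) :
    u ∈ Rig G T k (stage G T k {v | (T.neighborSet v).ncard = k + 1} i) ∨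
      v ∈ Rig G T k (stage G T k {v | (T.neighborSet v).ncard = k + 1} i) := by
  classical
  set S : Set V := {v | (T.neighborSet v).ncard = k + 1} with hS
  have hTS : ∀ j, ∀ x, x ∉ stage G T k S j → (T.neighborSet x).ncard ≤ k := by
    intro j x hx
    have h1 : x ∉ S := fun h => hx (stage_mono G T k S (Nat.zero_le j) h)
    have h2 := hdeg x
    have h3 : (T.neighborSet x).ncard ≠ k + 1 := h1
    omega
  by_contra hcon
  rw [not_or] at hcon
  obtain ⟨h1, h2⟩ := hcon
  have hA : ∃ A, Sim G T k (stage G T k S i) A ∧ (A.neighborSet u).ncard < k := by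
    by_contra h
    push Not at h
    exact h1 ⟨hu, h⟩
  have hB : ∃ B, Sim G T k (stage G T k S i) B ∧ (B.neighborSet v).ncard < k := by
    by_contra h
    push Not at h
    exact h2 ⟨hv, h⟩
  obtain ⟨A, hA, hAu⟩ := hA
  obtain ⟨B, hB, hBv⟩ := hB
  set C := comb (comp T (stage G T k S i) u) A B with hC
  have hCs : Sim G T k (stage G T k S i) C := comb_sim hA hB hu
  have hCu : (C.neighborSet u).ncard < k := by
    rw [hC, comb_nbr_mem (show u ∈ comp T (stage G T k S i) u from Reachable.refl _)]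
    exact hAu
  have hCv : (C.neighborSet v).ncard < k := by
    rw [hC, comb_nbr_notMem hA hB hu hv hn]
    exact hBv
  have hex : ∃ j, ¬ (del T (stage G T k S j)).Reachable u v := ⟨i, hn⟩
  have hji : Nat.find hex ≤ i := Nat.find_min' hex hn
  have hjn := Nat.find_spec hex
  have hsub : stage G T k S (Nat.find hex) ⊆ stage G T k S i := stage_mono G T k S hji
  have huj : u ∉ stage G T k S (Nat.find hex) := fun h => hu (hsub h)
  have hvj : v ∉ stage G T k S (Nat.find hex) := fun h => hv (hsub h)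
  have hCj : Sim G T k (stage G T k S (Nat.find hex)) C := hCs.mono hsub (hTS _)
  have hCn : ¬ (del C (stage G T k S (Nat.find hex))).Reachable u v := by
    rw [hCj.reach]
    exact hjn
  rcases Nat.eq_zero_or_pos (Nat.find hex) with hj | hj
  · rw [hj] at huj hvj hCn
    have hr : (del C ∅).Reachable u v := by
      rw [del_empty]
      exact hCs.reachable (hc.preconnected u v)
    obtain ⟨H', b, hb, -, hle, -, hreach, hd1, hd2, hd3, hd4⟩ :=
      swap (Set.empty_subset _) huj hvj hG hCs.le hr hCn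
    have hH'c : H'.Connected := by
      have := hc.nonempty
      refine ⟨fun x y => ?_⟩
      have := (hreach x y).2 (by
        rw [del_empty]
        exact hCs.reachable (hc.preconnected x y))
      rwa [del_empty] at this
    have hCdeg : ∀ x, x ∉ S → (C.neighborSet x).ncard ≤ k := by
      intro x hx
      exact (hCs.mono (stage_mono G T k S (Nat.zero_le i)) (hTS 0)).deg x hx
    have hCS : ∀ x, x ∈ S → (C.neighborSet x).ncard = k + 1 := by
      intro x hx
      have h3 : C.neighborSet x = T.neighborSet x := by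
        ext y
        exact hCs.adj x (stage_mono G T k S (Nat.zero_le i) hx) y
      rw [h3]
      exact hx
    have huS : u ∉ S := huj
    have hvS : v ∉ S := hvj
    have hbS : b ∈ S := hb
    have hdegS : ∀ x, x ∉ S → (H'.neighborSet x).ncard ≤ k := by
      intro x hx
      by_cases hxu : x = u
      · subst hxu
        omega
      by_cases hxv : x = v
      · subst hxv
        omega
      exact (hd1 x hxu hxv).trans (hCdeg x hx)
    have hdegS' : ∀ x, x ∈ S → (H'.neighborSet x).ncard ≤ k + 1 := by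
      intro x hx
      have hxu : x ≠ u := fun h => huS (h ▸ hx)
      have hxv : x ≠ v := fun h => hvS (h ▸ hx)
      exact (hd1 x hxu hxv).trans (hCS x hx).le
    have h5 := hmin H' hle hH'c (fun x => by
      by_cases hx : x ∈ S
      · exact hdegS' x hx
      · exact (hdegS x hx).trans (Nat.le_succ k))
    have h6 : {v | (H'.neighborSet v).ncard = k + 1}.ncard < S.ncard := by
      refine Set.ncard_lt_ncard ?_ (Set.toFinite _)
      rw [Set.ssubset_iff_of_subset]
      · refine ⟨b, hbS, ?_⟩
        intro (h : (H'.neighborSet b).ncard = k + 1)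
        have := hCS b hbS
        omega
      · intro x (hx : (H'.neighborSet x).ncard = k + 1)
        by_contra hxS
        have := hdegS x hxS
        omega
    omega
  · obtain ⟨j', hj'⟩ : ∃ j', Nat.find hex = j' + 1 := ⟨Nat.find hex - 1, by omega⟩
    have hlt : j' < Nat.find hex := by omega
    have hr0 : (del T (stage G T k S j')).Reachable u v := by
      by_contra h
      exact Nat.find_min hex hlt h
    rw [hj'] at huj hvj hCn
    have hsub' : stage G T k S j' ⊆ stage G T k S i :=
      stage_mono G T k S (by omega)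
    have hCj' : Sim G T k (stage G T k S j') C := hCs.mono hsub' (hTS _)
    have hr : (del C (stage G T k S j')).Reachable u v := (hCj'.reach u v).2 hr0
    obtain ⟨H', b, hb, hb', hle, hadj, hreach, hd1, hd2, hd3, hd4⟩ :=
      swap (stage_mono G T k S (Nat.le_succ j')) huj hvj hG hCs.le hr hCn
    have hbR : b ∈ Rig G T k (stage G T k S j') := by
      rcases hb with h | h
      · exact absurd h hb'
      · exact h
    have hsim : Sim G T k (stage G T k S j') H' := by
      refine ⟨hle, fun x hx y => (hadj x hx y).trans (hCj'.adj x hx y),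
        fun x y => (hreach x y).trans (hCj'.reach x y), fun x hx => ?_⟩
      by_cases hxu : x = u
      · subst hxu
        omega
      by_cases hxv : x = v
      · subst hxv
        omega
      exact (hd1 x hxu hxv).trans (hCj'.deg x hx)
    have h7 := hbR.2 H' hsim
    have h8 := hCj'.deg b hb'
    omega

lemma exists_closed [Finite V] {G T : SimpleGraph V} {k : ℕ} (hTG : T ≤ G) (hc : T.Connected)
    (hdeg : ∀ v, (T.neighborSet v).ncard ≤ k + 1)
    (hmin : ∀ H : SimpleGraph V, H ≤ G → H.Connected →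
      (∀ v, (H.neighborSet v).ncard ≤ k + 1) →
      {v | (T.neighborSet v).ncard = k + 1}.ncard ≤
        {v | (H.neighborSet v).ncard = k + 1}.ncard) :
    ∃ X : Set V, {v | (T.neighborSet v).ncard = k + 1} ⊆ X ∧
      (∀ v ∈ X, k ≤ (T.neighborSet v).ncard) ∧
      ∀ u v, u ∉ X → v ∉ X → G.Adj u v → (del T X).Reachable u v := by
  set S : Set V := {v | (T.neighborSet v).ncard = k + 1} with hS
  have hTS : ∀ j, ∀ x, x ∉ stage G T k S j → (T.neighborSet x).ncard ≤ k := by
    intro j x hx
    have h1 : x ∉ S := fun h => hx (stage_mono G T k S (Nat.zero_le j) h)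
    have h2 := hdeg x
    have h3 : (T.neighborSet x).ncard ≠ k + 1 := h1
    omega
  obtain ⟨i, hi⟩ := WellFoundedGT.monotone_chain_condition
    (⟨stage G T k S, stage_mono G T k S⟩ : ℕ →o Set V)
  have hi' : stage G T k S i = stage G T k S (i + 1) := hi (i + 1) (Nat.le_succ i)
  refine ⟨stage G T k S i, stage_mono G T k S (Nat.zero_le i), ?_, ?_⟩
  · have : ∀ j, ∀ v ∈ stage G T k S j, k ≤ (T.neighborSet v).ncard := by
      intro j
      induction j with
      | zero =>
        intro v (hv : (T.neighborSet v).ncard = k + 1)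
        omega
      | succ j ih =>
        rintro v (hv | hv)
        · exact ih v hv
        · exact hv.2 T (Sim.refl hTG (hTS j))
    exact this i
  · intro u v hu hv hG
    by_contra hn
    rcases closed hc hdeg hmin i hu hv hG hn with h | h
    · exact hu (hi' ▸ Or.inr h)
    · exact hv (hi' ▸ Or.inr h)

end Win

end PolyProd
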